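import Mathlib

/-! Permanents of matrices with entries in `[1,2]`. -/

open Finset

namespace Pool.Agent.Helper32.BD

theorem perm_bounds {N : ℕ} (B : Matrix (Fin (N + 1)) (Fin (N + 1)) ℝ) (h1 : ∀ i j, 1 ≤ B i j)
    (h2 : ∀ i j, B i j ≤ 2) :
    (((N : ℝ) + 2) / 2) * (B.submatrix Fin.succ Fin.succ).permanent ≤ B.permanent ∧
      B.permanent ≤ (4 * (N : ℝ) + 2) * (B.submatrix Fin.succ Fin.succ).permanent := by
  classical
  have hpos : ∀ i j, 0 < B i j := fun i j => lt_of_lt_of_le one_pos (h1 i j)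
  -- expansion
  have hexp : B.permanent = ∑ p : Fin (N + 1), ∑ e : Equiv.Perm (Fin N),
      B p 0 * ∏ x : Fin N, B (Equiv.swap 0 p (e x).succ) x.succ := by
    unfold Matrix.permanent
    rw [← Equiv.sum_comp Equiv.Perm.decomposeFin.symm, Fintype.sum_prod_type]
    refine Finset.sum_congr rfl fun p _ => Finset.sum_congr rfl fun e _ => ?_
    rw [Fin.prod_univ_succ, Equiv.Perm.decomposeFin_symm_apply_zero]
    congr 1
    refine Finset.prod_congr rfl fun x _ => ?_
    rw [Equiv.Perm.decomposeFin_symm_apply_succ]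
  have hsub : (B.submatrix Fin.succ Fin.succ).permanent =
      ∑ e : Equiv.Perm (Fin N), ∏ x : Fin N, B (e x).succ x.succ := rfl
  set P := (B.submatrix Fin.succ Fin.succ).permanent with hP
  have hTpos : ∀ e : Equiv.Perm (Fin N), 0 < ∏ x : Fin N, B (e x).succ x.succ :=
    fun e => Finset.prod_pos fun x _ => hpos _ _
  have hP0 : 0 ≤ P := by rw [hsub]; exact Finset.sum_nonneg fun e _ => (hTpos e).le
  have hzero : ∀ e : Equiv.Perm (Fin N), ∏ x : Fin N, B (Equiv.swap 0 0 (e x).succ) x.succ =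
      ∏ x : Fin N, B (e x).succ x.succ := by
    intro e
    simp
  have hsucc : ∀ (k : Fin N) (e : Equiv.Perm (Fin N)),
      (1 / 2) * (∏ x : Fin N, B (e x).succ x.succ) ≤
        B k.succ 0 * ∏ x : Fin N, B (Equiv.swap 0 k.succ (e x).succ) x.succ ∧
      B k.succ 0 * (∏ x : Fin N, B (Equiv.swap 0 k.succ (e x).succ) x.succ) ≤
        4 * ∏ x : Fin N, B (e x).succ x.succ := by
    intro k e
    set y := e.symm k with hy
    have e1 : (∏ x : Fin N, B (e x).succ x.succ) =
        B k.succ y.succ * ∏ x ∈ Finset.univ.erase y, B (e x).succ x.succ := by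
      rw [← Finset.mul_prod_erase Finset.univ _ (Finset.mem_univ y)]
      simp [hy]
    have e2 : (∏ x : Fin N, B (Equiv.swap 0 k.succ (e x).succ) x.succ) =
        B 0 y.succ * ∏ x ∈ Finset.univ.erase y, B (e x).succ x.succ := by
      rw [← Finset.mul_prod_erase Finset.univ _ (Finset.mem_univ y)]
      congr 1
      · simp [hy]
      · refine Finset.prod_congr rfl fun x hx => ?_
        rw [Equiv.swap_apply_of_ne_of_ne]
        · exact Fin.succ_ne_zero _
        · intro hc
          have : e x = k := Fin.succ_injective _ hc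
          have : x = y := by rw [hy, ← this]; simp
          exact (Finset.ne_of_mem_erase hx) this
    rw [e1, e2]
    set R := ∏ x ∈ Finset.univ.erase y, B (e x).succ x.succ with hR
    have hR0 : 0 < R := Finset.prod_pos fun x _ => hpos _ _
    have a1 := h1 k.succ 0
    have a2 := h2 k.succ 0
    have b1 := h1 0 y.succ
    have b2 := h2 0 y.succ
    have c1 := h1 k.succ y.succ
    have c2 := h2 k.succ y.succ
    constructor
    · have : 1 ≤ B k.succ 0 * B 0 y.succ := by nlinarith
      nlinarith [mul_le_mul_of_nonneg_right this hR0.le, mul_le_mul_of_nonneg_right c2 hR0.le]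
    · have : B k.succ 0 * B 0 y.succ ≤ 4 := by nlinarith
      nlinarith [mul_le_mul_of_nonneg_right this hR0.le, mul_le_mul_of_nonneg_right c1 hR0.le]
  rw [hexp, Fin.sum_univ_succ]
  constructor
  · have t0 : P ≤ ∑ e : Equiv.Perm (Fin N),
        B 0 0 * ∏ x : Fin N, B (Equiv.swap 0 0 (e x).succ) x.succ := by
      rw [hsub]
      refine Finset.sum_le_sum fun e _ => ?_
      rw [hzero e]
      nlinarith [hTpos e, h1 0 0]
    have t1 : ∀ k : Fin N, (1 / 2) * P ≤ ∑ e : Equiv.Perm (Fin N),
        B k.succ 0 * ∏ x : Fin N, B (Equiv.swap 0 k.succ (e x).succ) x.succ := by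
      intro k
      rw [hsub, Finset.mul_sum]
      exact Finset.sum_le_sum fun e _ => (hsucc k e).1
    have t2 := Finset.sum_le_sum fun (k : Fin N) (_ : k ∈ Finset.univ) => t1 k
    rw [Finset.sum_const, Finset.card_univ, Fintype.card_fin, nsmul_eq_mul] at t2
    nlinarith
  · have t0 : ∑ e : Equiv.Perm (Fin N),
        B 0 0 * ∏ x : Fin N, B (Equiv.swap 0 0 (e x).succ) x.succ ≤ 2 * P := by
      rw [hsub, Finset.mul_sum]
      refine Finset.sum_le_sum fun e _ => ?_
      rw [hzero e]
      nlinarith [hTpos e, h2 0 0]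
    have t1 : ∀ k : Fin N, ∑ e : Equiv.Perm (Fin N),
        B k.succ 0 * ∏ x : Fin N, B (Equiv.swap 0 k.succ (e x).succ) x.succ ≤ 4 * P := by
      intro k
      rw [hsub, Finset.mul_sum]
      exact Finset.sum_le_sum fun e _ => (hsucc k e).2
    have t2 := Finset.sum_le_sum fun (k : Fin N) (_ : k ∈ Finset.univ) => t1 k
    rw [Finset.sum_const, Finset.card_univ, Fintype.card_fin, nsmul_eq_mul] at t2
    nlinarith

theorem perm_mono {N : ℕ} {A B : Matrix (Fin N) (Fin N) ℝ} (h0 : ∀ i j, 0 ≤ A i j)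
    (h : ∀ i j, A i j ≤ B i j) : A.permanent ≤ B.permanent := by
  unfold Matrix.permanent
  exact Finset.sum_le_sum fun σ _ => Finset.prod_le_prod (fun i _ => h0 _ _) fun i _ => h _ _

theorem perm_nonneg {N : ℕ} {A : Matrix (Fin N) (Fin N) ℝ} (h0 : ∀ i j, 0 ≤ A i j) :
    0 ≤ A.permanent := by
  unfold Matrix.permanent
  exact Finset.sum_nonneg fun σ _ => Finset.prod_nonneg fun i _ => h0 _ _

/-- scaling the rows -/
theorem perm_mul_row {N : ℕ} (t : Fin N → ℝ) (B : Matrix (Fin N) (Fin N) ℝ) :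
    (Matrix.of fun i j => t i * B i j).permanent = (∏ i, t i) * B.permanent := by
  unfold Matrix.permanent
  rw [Finset.mul_sum]
  refine Finset.sum_congr rfl fun σ _ => ?_
  simp only [Matrix.of_apply]
  rw [Finset.prod_mul_distrib, Equiv.prod_comp σ t]

end Pool.Agent.Helper32.BD
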