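import Mathlib
import Pool.Agent.Helper28.EtaZ

/-! Chamber decomposition of symmetric integrals over `(0,∞)^n`. -/

open Set Filter Topology MeasureTheory
open scoped ENNReal

namespace Pool.Agent.Helper32.BD

open Pool.Agent.Helper28.Eta (mup nu)

theorem ae_injective (n : ℕ) : ∀ᵐ u ∂(nu n), Function.Injective u := by
  have h : ∀ i j : Fin n, i ≠ j → ∀ᵐ u ∂(nu n), u i ≠ u j := by
    intro i j hij
    have h0 : (volume : Measure (Fin n → ℝ)) {u | u i = u j} = 0 := by
      let W : Submodule ℝ (Fin n → ℝ) :=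
        { carrier := {u | u i = u j}
          add_mem' := by intro a b ha hb; simp only [Set.mem_ofPred_eq] at *; simp [ha, hb]
          zero_mem' := by simp
          smul_mem' := by intro c a ha; simp only [Set.mem_ofPred_eq] at *; simp [ha] }
      have hW : W ≠ ⊤ := by
        intro hc
        have : (Pi.single i (1 : ℝ) : Fin n → ℝ) ∈ W := by rw [hc]; trivial
        have h2 : (Pi.single i (1 : ℝ) : Fin n → ℝ) i = (Pi.single i (1 : ℝ) : Fin n → ℝ) j := this
        rw [Pi.single_eq_same, Pi.single_eq_of_ne hij.symm] at h2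
        exact one_ne_zero h2
      exact Measure.addHaar_submodule volume W hW
    have h1 : (nu n) {u | u i = u j} = 0 := by
      rw [Pool.Agent.Helper28.Eta.nu_eq]
      exact Measure.restrict_apply_eq_zero' (Pool.Agent.Helper28.Eta.measurableSet_OO n) |>.mpr
        (measure_mono_null Set.inter_subset_left h0)
    rw [ae_iff]
    simpa using h1
  have h2 : ∀ᵐ u ∂(nu n), ∀ i j : Fin n, i ≠ j → u i ≠ u j := by
    rw [ae_all_iff]; intro i
    rw [ae_all_iff]; intro j
    by_cases hij : i = j
    · exact Eventually.of_forall fun u hc => absurd hij hc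
    · filter_upwards [h i j hij] with u hu _ using hu
  filter_upwards [h2] with u hu i j hij
  by_contra hc
  exact hu i j hc hij

theorem exists_unique_mono {n : ℕ} {u : Fin n → ℝ} (hu : Function.Injective u) :
    ∃! σ : Equiv.Perm (Fin n), StrictMono (u ∘ σ) := by
  refine ⟨Tuple.sort u, (Tuple.monotone_sort u).strictMono_of_injective
    (hu.comp (Tuple.sort u).injective), fun σ hσ => ?_⟩
  have := Tuple.unique_monotone hσ.monotone (Tuple.monotone_sort u)
  ext i
  have h1 := congrFun this i
  simp only [Function.comp_apply] at h1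
  exact congrArg Fin.val (hu h1)

theorem exists_unique_anti {n : ℕ} {u : Fin n → ℝ} (hu : Function.Injective u) :
    ∃! σ : Equiv.Perm (Fin n), StrictAnti (u ∘ σ) := by
  have h := exists_unique_mono (u := fun i => -u i) (fun i j hij => hu (neg_injective hij))
  obtain ⟨σ, hσ, hun⟩ := h
  refine ⟨σ, fun i j hij => neg_lt_neg_iff.mp (hσ hij), fun τ hτ => hun τ fun i j hij => ?_⟩
  exact neg_lt_neg (hτ hij)

theorem measurePreserving_perm {n : ℕ} (σ : Equiv.Perm (Fin n)) :
    MeasurePreserving (fun u : Fin n → ℝ => u ∘ σ) (nu n) (nu n) := by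
  have h := measurePreserving_piCongrLeft (fun _ : Fin n => mup) σ.symm
  have e : (fun u : Fin n → ℝ => u ∘ σ) =
      ⇑(MeasurableEquiv.piCongrLeft (fun _ : Fin n => ℝ) σ.symm) := by
    funext u i
    rw [MeasurableEquiv.coe_piCongrLeft]
    have := Equiv.piCongrLeft_apply (fun _ : Fin n => ℝ) σ.symm u i
    rw [this]
    simp
  rw [e]
  exact h

theorem measurableSet_strictMono (n : ℕ) : MeasurableSet {u : Fin n → ℝ | StrictMono u} := by
  have : {u : Fin n → ℝ | StrictMono u} = ⋂ i, ⋂ j, ⋂ (_ : i < j), {u | u i < u j} := by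
    ext u
    simp only [Set.mem_ofPred_eq, Set.mem_iInter]
    exact ⟨fun h i j hij => h hij, fun h i j hij => h i j hij⟩
  rw [this]
  exact MeasurableSet.iInter fun i => MeasurableSet.iInter fun j => MeasurableSet.iInter fun _ =>
    measurableSet_lt (measurable_pi_apply i) (measurable_pi_apply j)

theorem measurableSet_strictAnti (n : ℕ) : MeasurableSet {u : Fin n → ℝ | StrictAnti u} := by
  have : {u : Fin n → ℝ | StrictAnti u} = ⋂ i, ⋂ j, ⋂ (_ : i < j), {u | u j < u i} := by
    ext u
    simp only [Set.mem_ofPred_eq, Set.mem_iInter]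
    exact ⟨fun h i j hij => h hij, fun h i j hij => h i j hij⟩
  rw [this]
  exact MeasurableSet.iInter fun i => MeasurableSet.iInter fun j => MeasurableSet.iInter fun _ =>
    measurableSet_lt (measurable_pi_apply j) (measurable_pi_apply i)

theorem lintegral_chamber_aux {n : ℕ} (S : Set (Fin n → ℝ)) (hS : MeasurableSet S)
    (hex : ∀ u : Fin n → ℝ, Function.Injective u → ∃! σ : Equiv.Perm (Fin n), u ∘ σ ∈ S)
    {G : (Fin n → ℝ) → ℝ≥0∞} (hG : Measurable G)
    (hs : ∀ (σ : Equiv.Perm (Fin n)) u, G (u ∘ σ) = G u) :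
    ∫⁻ u, G u ∂(nu n) = (n.factorial : ℝ≥0∞) * ∫⁻ u, S.indicator G u ∂(nu n) := by
  have h1 : ∀ᵐ u ∂(nu n), G u = ∑ σ : Equiv.Perm (Fin n), S.indicator G (u ∘ σ) := by
    filter_upwards [ae_injective n] with u hu
    obtain ⟨σ, hσ, hun⟩ := hex u hu
    rw [Finset.sum_eq_single σ]
    · rw [Set.indicator_of_mem hσ, hs]
    · intro τ _ hτ
      exact Set.indicator_of_notMem (fun hc => hτ (hun τ hc)) _
    · intro h; exact absurd (Finset.mem_univ _) h
  rw [lintegral_congr_ae h1]
  have hm : Measurable (S.indicator G) := hG.indicator hS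
  have h3 := lintegral_finsetSum (μ := nu n) Finset.univ
    (f := fun (σ : Equiv.Perm (Fin n)) u => S.indicator G (u ∘ σ))
    (fun σ _ => hm.comp (measurePreserving_perm σ).measurable)
  rw [h3]
  have h2 : ∀ σ : Equiv.Perm (Fin n), ∫⁻ u, S.indicator G (u ∘ σ) ∂(nu n) =
      ∫⁻ u, S.indicator G u ∂(nu n) := fun σ => (measurePreserving_perm σ).lintegral_comp hm
  simp_rw [h2]
  rw [Finset.sum_const, Finset.card_univ, Fintype.card_perm, Fintype.card_fin, nsmul_eq_mul]

/-- measurable equivalence `ℝ × (Fin n → ℝ) ≃ (Fin (n+1) → ℝ)` preserving measures -/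
theorem lintegral_cons {n : ℕ} {G : (Fin (n + 1) → ℝ) → ℝ≥0∞} (hG : Measurable G) :
    ∫⁻ u, G u ∂(nu (n + 1)) = ∫⁻ a, ∫⁻ u, G (Fin.cons a u) ∂(nu n) ∂mup := by
  have h := (measurePreserving_piFinSuccAbove (fun _ : Fin (n + 1) => mup) 0).symm
  have h1 : ∫⁻ u, G u ∂(nu (n + 1)) =
      ∫⁻ q, G ((MeasurableEquiv.piFinSuccAbove (fun _ => ℝ) 0).symm q)
        ∂(mup.prod (Measure.pi fun j : Fin n => (fun _ : Fin (n + 1) => mup) (Fin.succAbove 0 j))) := by
    rw [h.lintegral_comp hG]; rfl
  have e : ∀ (x : ℝ) (y : Fin n → ℝ), (MeasurableEquiv.piFinSuccAbove (fun _ : Fin (n + 1) => ℝ) 0).symm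
      (x, y) = (Fin.cons x y : Fin (n + 1) → ℝ) := by
    intro x y
    exact Fin.insertNth_zero' x y
  rw [h1, lintegral_prod]
  · simp_rw [e]; rfl
  · exact (hG.comp (MeasurableEquiv.measurable _)).aemeasurable

theorem strictMono_cons {n : ℕ} {a : ℝ} {u : Fin n → ℝ} :
    StrictMono (Fin.cons a u : Fin (n + 1) → ℝ) ↔ (∀ i, a < u i) ∧ StrictMono u := by
  constructor
  · intro h
    refine ⟨fun i => ?_, fun i j hij => ?_⟩
    · have := h (Fin.succ_pos i)
      simpa using this
    · have := h (Fin.succ_lt_succ_iff.mpr hij)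
      simpa using this
  · rintro ⟨h1, h2⟩ i j hij
    induction i using Fin.cases with
    | zero =>
      induction j using Fin.cases with
      | zero => exact absurd hij (lt_irrefl _)
      | succ j => simpa using h1 j
    | succ i =>
      induction j using Fin.cases with
      | zero => exact absurd hij (Fin.not_lt_zero _)
      | succ j => simpa using h2 (Fin.succ_lt_succ_iff.mp hij)

end Pool.Agent.Helper32.BD
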