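import Mathlib
import Pool.Agent.Helper55.BD.FourFun
import Pool.Agent.Helper32.BD.Chamber

/-! The Cauchy ensemble density on the chamber and its MTP2 property. -/

open Set Filter Topology MeasureTheory Finset
open scoped ENNReal

namespace Pool.Agent.Helper32.BD

open Pool.Agent.Helper28.Eta (mup nu)

/-- pair factor -/
noncomputable def PP (a b : ℝ) : ℝ≥0∞ :=
  if 0 < a ∧ a < b then
    ENNReal.ofReal ((Real.log b - Real.log a) * (Real.exp (-a) - Real.exp (-b))) else 0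

/-- cross factor -/
noncomputable def KK (a b : ℝ) : ℝ≥0∞ :=
  ENNReal.ofReal (1 / (1 + Real.exp (-a) * Real.exp (-b)))

/-- one particle factor -/
noncomputable def ppos (p : ℝ → ℝ≥0∞) (a : ℝ) : ℝ≥0∞ := if 0 < a then p a else 0

theorem PP_of {a b : ℝ} (ha : 0 < a) (hab : a < b) : PP a b =
    ENNReal.ofReal ((Real.log b - Real.log a) * (Real.exp (-a) - Real.exp (-b))) :=
  if_pos ⟨ha, hab⟩

theorem PP_zero {a b : ℝ} (h : ¬ (0 < a ∧ a < b)) : PP a b = 0 := if_neg h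

theorem log_sub_nonneg {a b : ℝ} (ha : 0 < a) (hab : a ≤ b) : 0 ≤ Real.log b - Real.log a :=
  sub_nonneg.mpr (Real.log_le_log ha hab)

theorem exp_sub_nonneg {a b : ℝ} (hab : a ≤ b) : 0 ≤ Real.exp (-a) - Real.exp (-b) :=
  sub_nonneg.mpr (Real.exp_le_exp.mpr (neg_le_neg hab))

/-- crossing inequality for differences -/
theorem diff_cross {A A' B B' : ℝ} (hA : A ≤ A') (hB : B' ≤ B) :
    (B - A) * (B' - A') ≤ (B - A') * (B' - A) := by nlinarith [mul_nonneg (sub_nonneg.mpr hA) (sub_nonneg.mpr hB)]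

theorem PP_cross {a a' b b' : ℝ} (ha : 0 < a) (h1 : a ≤ a') (h2 : a' < b') (h3 : b' ≤ b) :
    PP a b * PP a' b' ≤ PP a' b * PP a b' := by
  have ha' : 0 < a' := lt_of_lt_of_le ha h1
  have hab : a < b := lt_of_le_of_lt h1 (lt_of_lt_of_le h2 h3)
  rw [PP_of ha hab, PP_of ha' h2, PP_of ha' (lt_of_lt_of_le h2 h3),
    PP_of ha (lt_of_le_of_lt h1 h2)]
  have l1 := Real.log_le_log ha h1
  have l2 := Real.log_le_log (ha'.trans h2) h3
  have e1 : Real.exp (-a') ≤ Real.exp (-a) := Real.exp_le_exp.mpr (neg_le_neg h1)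
  have e2 : Real.exp (-b) ≤ Real.exp (-b') := Real.exp_le_exp.mpr (neg_le_neg h3)
  have l3 := Real.log_le_log ha' h2.le
  have e3 : Real.exp (-b') ≤ Real.exp (-a') := Real.exp_le_exp.mpr (neg_le_neg h2.le)
  have n1 : 0 ≤ (Real.log b - Real.log a) * (Real.exp (-a) - Real.exp (-b)) :=
    mul_nonneg (by linarith) (by linarith)
  have n2 : 0 ≤ (Real.log b - Real.log a') * (Real.exp (-a') - Real.exp (-b)) :=
    mul_nonneg (by linarith) (by linarith)
  rw [← ENNReal.ofReal_mul n1, ← ENNReal.ofReal_mul n2]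
  refine ENNReal.ofReal_le_ofReal ?_
  have d1 : (Real.log b - Real.log a) * (Real.log b' - Real.log a') ≤
      (Real.log b - Real.log a') * (Real.log b' - Real.log a) := diff_cross l1 l2
  have d2 : (Real.exp (-a) - Real.exp (-b)) * (Real.exp (-a') - Real.exp (-b')) ≤
      (Real.exp (-a') - Real.exp (-b)) * (Real.exp (-a) - Real.exp (-b')) := by
    nlinarith [mul_nonneg (sub_nonneg.mpr e1) (sub_nonneg.mpr e2)]
  calc (Real.log b - Real.log a) * (Real.exp (-a) - Real.exp (-b)) *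
        ((Real.log b' - Real.log a') * (Real.exp (-a') - Real.exp (-b')))
      = ((Real.log b - Real.log a) * (Real.log b' - Real.log a')) *
        ((Real.exp (-a) - Real.exp (-b)) * (Real.exp (-a') - Real.exp (-b'))) := by ring
    _ ≤ ((Real.log b - Real.log a') * (Real.log b' - Real.log a)) *
        ((Real.exp (-a') - Real.exp (-b)) * (Real.exp (-a) - Real.exp (-b'))) := by
        refine mul_le_mul d1 d2 ?_ ?_
        · exact mul_nonneg (by linarith) (by linarith)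
        · exact mul_nonneg (by linarith) (by linarith)
    _ = _ := by ring

theorem PP_four (a b a' b' : ℝ) :
    PP a b * PP a' b' ≤ PP (a ⊔ a') (b ⊔ b') * PP (a ⊓ a') (b ⊓ b') := by
  by_cases h : 0 < a ∧ a < b
  swap
  · rw [PP_zero h, zero_mul]; exact bot_le
  by_cases h' : 0 < a' ∧ a' < b'
  swap
  · rw [PP_zero h', mul_zero]; exact bot_le
  rcases le_total a a' with ha | ha <;> rcases le_total b b' with hb | hb
  · rw [sup_eq_right.mpr ha, sup_eq_right.mpr hb, inf_eq_left.mpr ha, inf_eq_left.mpr hb, mul_comm]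
  · rw [sup_eq_right.mpr ha, sup_eq_left.mpr hb, inf_eq_left.mpr ha, inf_eq_right.mpr hb]
    exact PP_cross h.1 ha h'.2 hb
  · rw [sup_eq_left.mpr ha, sup_eq_right.mpr hb, inf_eq_right.mpr ha, inf_eq_left.mpr hb, mul_comm]
    exact PP_cross h'.1 ha h.2 hb
  · rw [sup_eq_left.mpr ha, sup_eq_left.mpr hb, inf_eq_right.mpr ha, inf_eq_right.mpr hb]

theorem KK_cross {a a' b b' : ℝ} (h1 : a ≤ a') (h2 : b ≤ b') :
    KK a b * KK a' b' ≤ KK a' b * KK a b' := by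
  unfold KK
  have e1 : Real.exp (-a') ≤ Real.exp (-a) := Real.exp_le_exp.mpr (neg_le_neg h1)
  have e2 : Real.exp (-b') ≤ Real.exp (-b) := Real.exp_le_exp.mpr (neg_le_neg h2)
  rw [← ENNReal.ofReal_mul (by positivity), ← ENNReal.ofReal_mul (by positivity)]
  refine ENNReal.ofReal_le_ofReal ?_
  rw [div_mul_div_comm, div_mul_div_comm]
  refine div_le_div_of_nonneg_left (by norm_num) (by positivity) ?_
  nlinarith [mul_nonneg (sub_nonneg.mpr e1) (sub_nonneg.mpr e2)]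

theorem KK_four (a b a' b' : ℝ) :
    KK a b * KK a' b' ≤ KK (a ⊔ a') (b ⊓ b') * KK (a ⊓ a') (b ⊔ b') := by
  rcases le_total a a' with ha | ha <;> rcases le_total b b' with hb | hb
  · rw [sup_eq_right.mpr ha, inf_eq_left.mpr hb, inf_eq_left.mpr ha, sup_eq_right.mpr hb]
    exact KK_cross ha hb
  · rw [sup_eq_right.mpr ha, inf_eq_right.mpr hb, inf_eq_left.mpr ha, sup_eq_left.mpr hb, mul_comm]
  · rw [sup_eq_left.mpr ha, inf_eq_left.mpr hb, inf_eq_right.mpr ha, sup_eq_right.mpr hb]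
  · rw [sup_eq_left.mpr ha, inf_eq_right.mpr hb, inf_eq_right.mpr ha, sup_eq_left.mpr hb, mul_comm]
    exact KK_cross ha hb

theorem one_four (p : ℝ → ℝ≥0∞) (a a' : ℝ) : p a * p a' = p (a ⊔ a') * p (a ⊓ a') := by
  rcases le_total a a' with ha | ha
  · rw [sup_eq_right.mpr ha, inf_eq_left.mpr ha, mul_comm]
  · rw [sup_eq_left.mpr ha, inf_eq_right.mpr ha]

/-- the density on the chamber `u` increasing, `v` decreasing -/
noncomputable def fC (p q : ℝ → ℝ≥0∞) {N : ℕ} (z : (Fin N → ℝ) × (Fin N → ℝ)) : ℝ≥0∞ :=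
  (∏ i, ∏ j ∈ Ioi i, PP (z.1 i) (z.1 j)) * (∏ i, ∏ j ∈ Ioi i, PP (z.2 j) (z.2 i)) *
    (∏ i, ∏ j, KK (z.1 i) (z.2 j)) * (∏ i, ppos p (z.1 i)) * (∏ j, ppos q (z.2 j))

theorem fC_four (p q : ℝ → ℝ≥0∞) {N : ℕ} (z z' : (Fin N → ℝ) × (Fin N → ℝ)) :
    fC p q z * fC p q z' ≤
      fC p q (z.1 ⊔ z'.1, z.2 ⊓ z'.2) * fC p q (z.1 ⊓ z'.1, z.2 ⊔ z'.2) := by
  have h1 : (∏ i, ∏ j ∈ Ioi i, PP (z.1 i) (z.1 j)) * (∏ i, ∏ j ∈ Ioi i, PP (z'.1 i) (z'.1 j)) ≤
      (∏ i, ∏ j ∈ Ioi i, PP ((z.1 ⊔ z'.1) i) ((z.1 ⊔ z'.1) j)) *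
        (∏ i, ∏ j ∈ Ioi i, PP ((z.1 ⊓ z'.1) i) ((z.1 ⊓ z'.1) j)) := by
    rw [← Finset.prod_mul_distrib, ← Finset.prod_mul_distrib]
    refine Finset.prod_le_prod' fun i _ => ?_
    rw [← Finset.prod_mul_distrib, ← Finset.prod_mul_distrib]
    exact Finset.prod_le_prod' fun j _ => PP_four _ _ _ _
  have h2 : (∏ i, ∏ j ∈ Ioi i, PP (z.2 j) (z.2 i)) * (∏ i, ∏ j ∈ Ioi i, PP (z'.2 j) (z'.2 i)) ≤
      (∏ i, ∏ j ∈ Ioi i, PP ((z.2 ⊓ z'.2) j) ((z.2 ⊓ z'.2) i)) *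
        (∏ i, ∏ j ∈ Ioi i, PP ((z.2 ⊔ z'.2) j) ((z.2 ⊔ z'.2) i)) := by
    rw [← Finset.prod_mul_distrib, ← Finset.prod_mul_distrib]
    refine Finset.prod_le_prod' fun i _ => ?_
    rw [← Finset.prod_mul_distrib, ← Finset.prod_mul_distrib]
    refine Finset.prod_le_prod' fun j _ => ?_
    rw [mul_comm (PP ((z.2 ⊓ z'.2) j) _)]
    exact PP_four _ _ _ _
  have h3 : (∏ i, ∏ j, KK (z.1 i) (z.2 j)) * (∏ i, ∏ j, KK (z'.1 i) (z'.2 j)) ≤
      (∏ i, ∏ j, KK ((z.1 ⊔ z'.1) i) ((z.2 ⊓ z'.2) j)) *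
        (∏ i, ∏ j, KK ((z.1 ⊓ z'.1) i) ((z.2 ⊔ z'.2) j)) := by
    rw [← Finset.prod_mul_distrib, ← Finset.prod_mul_distrib]
    refine Finset.prod_le_prod' fun i _ => ?_
    rw [← Finset.prod_mul_distrib, ← Finset.prod_mul_distrib]
    exact Finset.prod_le_prod' fun j _ => KK_four _ _ _ _
  have h4 : (∏ i, ppos p (z.1 i)) * (∏ i, ppos p (z'.1 i)) =
      (∏ i, ppos p ((z.1 ⊔ z'.1) i)) * (∏ i, ppos p ((z.1 ⊓ z'.1) i)) := by
    rw [← Finset.prod_mul_distrib, ← Finset.prod_mul_distrib]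
    exact Finset.prod_congr rfl fun i _ => one_four _ _ _
  have h5 : (∏ i, ppos q (z.2 i)) * (∏ i, ppos q (z'.2 i)) =
      (∏ i, ppos q ((z.2 ⊓ z'.2) i)) * (∏ i, ppos q ((z.2 ⊔ z'.2) i)) := by
    rw [← Finset.prod_mul_distrib, ← Finset.prod_mul_distrib]
    exact Finset.prod_congr rfl fun i _ => by rw [one_four, mul_comm]; rfl
  unfold fC
  calc _ = ((∏ i, ∏ j ∈ Ioi i, PP (z.1 i) (z.1 j)) * (∏ i, ∏ j ∈ Ioi i, PP (z'.1 i) (z'.1 j))) *
        ((∏ i, ∏ j ∈ Ioi i, PP (z.2 j) (z.2 i)) * (∏ i, ∏ j ∈ Ioi i, PP (z'.2 j) (z'.2 i))) *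
        ((∏ i, ∏ j, KK (z.1 i) (z.2 j)) * (∏ i, ∏ j, KK (z'.1 i) (z'.2 j))) *
        ((∏ i, ppos p (z.1 i)) * (∏ i, ppos p (z'.1 i))) *
        ((∏ i, ppos q (z.2 i)) * (∏ i, ppos q (z'.2 i))) := by ring
    _ ≤ _ := by
      refine (mul_le_mul' (mul_le_mul' (mul_le_mul' (mul_le_mul' h1 h2) h3) h4.le) h5.le).trans ?_
      apply le_of_eq
      ring

/-- the factor gained by adding a pair -/
noncomputable def gg (a b : ℝ) {N : ℕ} (z : (Fin N → ℝ) × (Fin N → ℝ)) : ℝ≥0∞ :=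
  (∏ i, PP a (z.1 i) * KK (z.1 i) b) * ∏ j, PP (z.2 j) b * KK a (z.2 j)

theorem fC_cons (p q : ℝ → ℝ≥0∞) {N : ℕ} (a b : ℝ) (u v : Fin N → ℝ) :
    fC p q ((Fin.cons a u : Fin (N + 1) → ℝ), (Fin.cons b v : Fin (N + 1) → ℝ)) =
      (KK a b * ppos p a * ppos q b) * (fC p q (u, v) * gg a b (u, v)) := by
  have hI : ∀ F : Fin (N + 1) → Fin (N + 1) → ℝ≥0∞, (∏ i, ∏ j ∈ Ioi i, F i j) =
      (∏ j : Fin N, F 0 j.succ) * ∏ i : Fin N, ∏ j ∈ Ioi i, F i.succ j.succ := by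
    intro F
    rw [Fin.prod_univ_succ]
    congr 1
    · rw [Fin.Ioi_zero_eq_map, Finset.prod_map]; rfl
    · refine Finset.prod_congr rfl fun i _ => ?_
      rw [Fin.Ioi_succ, Finset.prod_map]; rfl
  unfold fC gg
  simp only [hI, Fin.prod_univ_succ, Fin.cons_zero, Fin.cons_succ, Finset.prod_mul_distrib]
  ring

theorem gg_mono_one {a b t t' : ℝ} (h : t ≤ t') : PP a t * KK t b ≤ PP a t' * KK t' b := by
  by_cases h0 : 0 < a ∧ a < t
  swap
  · rw [PP_zero h0, zero_mul]; exact bot_le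
  rw [PP_of h0.1 h0.2, PP_of h0.1 (lt_of_lt_of_le h0.2 h)]
  unfold KK
  have ht : 0 < t := h0.1.trans h0.2
  refine mul_le_mul' (ENNReal.ofReal_le_ofReal ?_) (ENNReal.ofReal_le_ofReal ?_)
  · have l1 := Real.log_le_log ht h
    have l0 := Real.log_le_log h0.1 h0.2.le
    have e1 : Real.exp (-t') ≤ Real.exp (-t) := Real.exp_le_exp.mpr (neg_le_neg h)
    have e0 : Real.exp (-t) ≤ Real.exp (-a) := Real.exp_le_exp.mpr (neg_le_neg h0.2.le)
    exact mul_le_mul (by linarith) (by linarith) (by linarith) (by linarith)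
  · refine div_le_div_of_nonneg_left zero_le_one (by positivity) ?_
    have e1 : Real.exp (-t') ≤ Real.exp (-t) := Real.exp_le_exp.mpr (neg_le_neg h)
    have := mul_le_mul_of_nonneg_right e1 (Real.exp_pos (-b)).le
    linarith

theorem gg_mono_two {a b t t' : ℝ} (ht' : 0 < t') (h : t' ≤ t) :
    PP t b * KK a t ≤ PP t' b * KK a t' := by
  by_cases h0 : 0 < t ∧ t < b
  swap
  · rw [PP_zero h0, zero_mul]; exact bot_le
  have hb := lt_of_le_of_lt h h0.2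
  rw [PP_of h0.1 h0.2, PP_of ht' hb]
  unfold KK
  have l1 := Real.log_le_log ht' h
  have l0 := Real.log_le_log h0.1 h0.2.le
  have e1 : Real.exp (-t) ≤ Real.exp (-t') := Real.exp_le_exp.mpr (neg_le_neg h)
  have e0 : Real.exp (-b) ≤ Real.exp (-t) := Real.exp_le_exp.mpr (neg_le_neg h0.2.le)
  have n1 : 0 ≤ (Real.log b - Real.log t) * (Real.exp (-t) - Real.exp (-b)) :=
    mul_nonneg (by linarith) (by linarith)
  have n2 : 0 ≤ (Real.log b - Real.log t') * (Real.exp (-t') - Real.exp (-b)) :=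
    mul_nonneg (by linarith) (by linarith)
  rw [← ENNReal.ofReal_mul n1, ← ENNReal.ofReal_mul n2]
  refine ENNReal.ofReal_le_ofReal ?_
  rw [mul_assoc, mul_assoc]
  refine mul_le_mul (by linarith) ?_ (mul_nonneg (by linarith) (by positivity)) (by linarith)
  rw [mul_one_div, mul_one_div, div_le_div_iff₀ (by positivity) (by positivity)]
  have hx := Real.exp_pos (-a)
  have hy := Real.exp_pos (-b)
  nlinarith [mul_nonneg (sub_nonneg.mpr e1) (mul_pos hx hy).le]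

theorem gg_mono {a b : ℝ} {N : ℕ} {z z' : (Fin N → ℝ) × (Fin N → ℝ)} (h1 : z.1 ≤ z'.1)
    (h2 : z'.2 ≤ z.2) (hp : ∀ i, 0 < z'.2 i) : gg a b z ≤ gg a b z' := by
  unfold gg
  exact mul_le_mul' (Finset.prod_le_prod' fun i _ => gg_mono_one (h1 i))
    (Finset.prod_le_prod' fun j _ => gg_mono_two (hp j) (h2 j))

/-- positivity on the support -/
theorem pos_of_fC_ne_zero {p q : ℝ → ℝ≥0∞} {N : ℕ} {z : (Fin N → ℝ) × (Fin N → ℝ)}
    (h : fC p q z ≠ 0) : (∀ i, 0 < z.1 i) ∧ (∀ i, 0 < z.2 i) := by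
  unfold fC at h
  constructor
  · intro i
    by_contra hc
    apply h
    have : ppos p (z.1 i) = 0 := if_neg hc
    have h1 : (∏ i, ppos p (z.1 i)) = 0 := Finset.prod_eq_zero (Finset.mem_univ i) this
    rw [h1]
    simp
  · intro i
    by_contra hc
    apply h
    have : ppos q (z.2 i) = 0 := if_neg hc
    have h1 : (∏ i, ppos q (z.2 i)) = 0 := Finset.prod_eq_zero (Finset.mem_univ i) this
    rw [h1]
    simp

theorem chamber_of_fC_ne_zero {p q : ℝ → ℝ≥0∞} {N : ℕ} {z : (Fin N → ℝ) × (Fin N → ℝ)}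
    (h : fC p q z ≠ 0) : StrictMono z.1 ∧ StrictAnti z.2 := by
  unfold fC at h
  constructor
  · intro i j hij
    by_contra hc
    apply h
    have h0 : PP (z.1 i) (z.1 j) = 0 := PP_zero fun hc' => hc hc'.2
    have h1 : (∏ j ∈ Ioi i, PP (z.1 i) (z.1 j)) = 0 :=
      Finset.prod_eq_zero (Finset.mem_Ioi.mpr hij) h0
    rw [Finset.prod_eq_zero (Finset.mem_univ i) h1]
    simp
  · intro i j hij
    by_contra hc
    apply h
    have h0 : PP (z.2 j) (z.2 i) = 0 := PP_zero fun hc' => hc hc'.2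
    have h1 : (∏ j ∈ Ioi i, PP (z.2 j) (z.2 i)) = 0 :=
      Finset.prod_eq_zero (Finset.mem_Ioi.mpr hij) h0
    have h2 : (∏ i, ∏ j ∈ Ioi i, PP (z.2 j) (z.2 i)) = 0 :=
      Finset.prod_eq_zero (Finset.mem_univ i) h1
    rw [h2]
    simp

/-! measurability -/

theorem measurable_PP : Measurable (fun r : ℝ × ℝ => PP r.1 r.2) := by
  unfold PP
  refine Measurable.ite ?_ ?_ measurable_const
  · exact (measurableSet_lt measurable_const measurable_fst).inter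
      (measurableSet_lt measurable_fst measurable_snd)
  · refine ENNReal.measurable_ofReal.comp ?_
    exact ((Real.measurable_log.comp measurable_snd).sub (Real.measurable_log.comp measurable_fst)).mul
      ((Real.measurable_exp.comp measurable_fst.neg).sub (Real.measurable_exp.comp measurable_snd.neg))

theorem measurable_KK : Measurable (fun r : ℝ × ℝ => KK r.1 r.2) := by
  unfold KK
  refine ENNReal.measurable_ofReal.comp ?_
  exact measurable_const.div (((Real.measurable_exp.comp measurable_fst.neg).mul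
    (Real.measurable_exp.comp measurable_snd.neg)).const_add 1)

theorem measurable_ppos {p : ℝ → ℝ≥0∞} (hp : Measurable p) : Measurable (ppos p) := by
  unfold ppos
  exact Measurable.ite (measurableSet_lt measurable_const measurable_id) hp measurable_const

theorem measurable_fC {p q : ℝ → ℝ≥0∞} (hp : Measurable p) (hq : Measurable q) (N : ℕ) :
    Measurable (fun z : (Fin N → ℝ) × (Fin N → ℝ) => fC p q z) := by
  have m1 : ∀ i : Fin N, Measurable (fun z : (Fin N → ℝ) × (Fin N → ℝ) => z.1 i) :=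
    fun i => (measurable_pi_apply i).comp measurable_fst
  have m2 : ∀ i : Fin N, Measurable (fun z : (Fin N → ℝ) × (Fin N → ℝ) => z.2 i) :=
    fun i => (measurable_pi_apply i).comp measurable_snd
  unfold fC
  refine Measurable.mul (Measurable.mul (Measurable.mul (Measurable.mul ?_ ?_) ?_) ?_) ?_
  · exact Finset.measurable_prod _ fun i _ => Finset.measurable_prod _ fun j _ =>
      measurable_PP.comp ((m1 i).prodMk (m1 j))
  · exact Finset.measurable_prod _ fun i _ => Finset.measurable_prod _ fun j _ =>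
      measurable_PP.comp ((m2 j).prodMk (m2 i))
  · exact Finset.measurable_prod _ fun i _ => Finset.measurable_prod _ fun j _ =>
      measurable_KK.comp ((m1 i).prodMk (m2 j))
  · exact Finset.measurable_prod _ fun i _ => (measurable_ppos hp).comp (m1 i)
  · exact Finset.measurable_prod _ fun i _ => (measurable_ppos hq).comp (m2 i)

theorem measurable_gg (a b : ℝ) (N : ℕ) :
    Measurable (fun z : (Fin N → ℝ) × (Fin N → ℝ) => gg a b z) := by
  have m1 : ∀ i : Fin N, Measurable (fun z : (Fin N → ℝ) × (Fin N → ℝ) => z.1 i) :=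
    fun i => (measurable_pi_apply i).comp measurable_fst
  have m2 : ∀ i : Fin N, Measurable (fun z : (Fin N → ℝ) × (Fin N → ℝ) => z.2 i) :=
    fun i => (measurable_pi_apply i).comp measurable_snd
  unfold gg
  refine Measurable.mul ?_ ?_
  · exact Finset.measurable_prod _ fun i _ => (measurable_PP.comp (measurable_const.prodMk (m1 i))).mul
      (measurable_KK.comp ((m1 i).prodMk measurable_const))
  · exact Finset.measurable_prod _ fun i _ => (measurable_PP.comp ((m2 i).prodMk measurable_const)).mul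
      (measurable_KK.comp (measurable_const.prodMk (m2 i)))

/-! FKG inequalities -/

/-- increasing for the order `(u, -v)` on the positive orthant -/
def Incr {N : ℕ} (F : (Fin N → ℝ) × (Fin N → ℝ) → ℝ≥0∞) : Prop :=
  ∀ z z', (∀ i, 0 < z.1 i) → (∀ i, 0 < z.2 i) → (∀ i, 0 < z'.1 i) → (∀ i, 0 < z'.2 i) →
    z.1 ≤ z'.1 → z'.2 ≤ z.2 → F z ≤ F z'

def Decr {N : ℕ} (F : (Fin N → ℝ) × (Fin N → ℝ) → ℝ≥0∞) : Prop :=
  ∀ z z', (∀ i, 0 < z.1 i) → (∀ i, 0 < z.2 i) → (∀ i, 0 < z'.1 i) → (∀ i, 0 < z'.2 i) →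
    z.1 ≤ z'.1 → z'.2 ≤ z.2 → F z' ≤ F z

theorem hasFour_nunu (N : ℕ) : Pool.Agent.Helper55.BD.HasFour ((nu N).prod (nu N))
      (fun p q => (p.1 ⊔ q.1, p.2 ⊓ q.2)) (fun p q => (p.1 ⊓ q.1, p.2 ⊔ q.2)) :=
  Pool.Agent.Helper55.BD.hasFour_mixed (fun _ => mup) (fun _ => mup)

theorem fkg_incr {p q : ℝ → ℝ≥0∞} (hp : Measurable p) (hq : Measurable q) {N : ℕ} (a b : ℝ)
    {F : (Fin N → ℝ) × (Fin N → ℝ) → ℝ≥0∞} (hF : Measurable F) (hi : Incr F) :
    (∫⁻ z, fC p q z * gg a b z ∂((nu N).prod (nu N))) * (∫⁻ z, fC p q z * F z ∂((nu N).prod (nu N))) ≤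
      (∫⁻ z, fC p q z * gg a b z * F z ∂((nu N).prod (nu N))) *
        (∫⁻ z, fC p q z ∂((nu N).prod (nu N))) := by
  have hf := measurable_fC hp hq N
  have hg := measurable_gg a b N
  refine hasFour_nunu N _ _ _ _ (hf.mul hg) (hf.mul hF) ((hf.mul hg).mul hF) hf ?_
  intro x y
  by_cases hx : fC p q x = 0
  · rw [hx]; simp
  by_cases hy : fC p q y = 0
  · rw [hy]; simp
  obtain ⟨x1, x2⟩ := pos_of_fC_ne_zero hx
  obtain ⟨y1, y2⟩ := pos_of_fC_ne_zero hy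
  have s1 : ∀ i, 0 < (x.1 ⊔ y.1) i := fun i => lt_of_lt_of_le (x1 i) le_sup_left
  have s2 : ∀ i, 0 < (x.2 ⊓ y.2) i := fun i => lt_inf_iff.mpr ⟨x2 i, y2 i⟩
  have e1 : gg a b x ≤ gg a b (x.1 ⊔ y.1, x.2 ⊓ y.2) := gg_mono le_sup_left inf_le_left s2
  have e2 : F y ≤ F (x.1 ⊔ y.1, x.2 ⊓ y.2) := hi y _ y1 y2 s1 s2 le_sup_right inf_le_right
  have e3 := fC_four p q x y
  calc fC p q x * gg a b x * (fC p q y * F y)
      = (fC p q x * fC p q y) * (gg a b x * F y) := by ring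
    _ ≤ (fC p q (x.1 ⊔ y.1, x.2 ⊓ y.2) * fC p q (x.1 ⊓ y.1, x.2 ⊔ y.2)) *
        (gg a b (x.1 ⊔ y.1, x.2 ⊓ y.2) * F (x.1 ⊔ y.1, x.2 ⊓ y.2)) :=
        mul_le_mul' e3 (mul_le_mul' e1 e2)
    _ = _ := by ring

theorem fkg_decr {p q : ℝ → ℝ≥0∞} (hp : Measurable p) (hq : Measurable q) {N : ℕ} (a b : ℝ)
    {F : (Fin N → ℝ) × (Fin N → ℝ) → ℝ≥0∞} (hF : Measurable F) (hi : Decr F) :
    (∫⁻ z, fC p q z * gg a b z * F z ∂((nu N).prod (nu N))) *
        (∫⁻ z, fC p q z ∂((nu N).prod (nu N))) ≤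
    (∫⁻ z, fC p q z * gg a b z ∂((nu N).prod (nu N))) *
      (∫⁻ z, fC p q z * F z ∂((nu N).prod (nu N))) := by
  have hf := measurable_fC hp hq N
  have hg := measurable_gg a b N
  refine hasFour_nunu N _ _ _ _ ((hf.mul hg).mul hF) hf (hf.mul hg) (hf.mul hF) ?_
  intro x y
  by_cases hx : fC p q x = 0
  · rw [hx]; simp
  by_cases hy : fC p q y = 0
  · rw [hy]; simp
  obtain ⟨x1, x2⟩ := pos_of_fC_ne_zero hx
  obtain ⟨y1, y2⟩ := pos_of_fC_ne_zero hy
  have s1 : ∀ i, 0 < (x.1 ⊓ y.1) i := fun i => lt_inf_iff.mpr ⟨x1 i, y1 i⟩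
  have s2 : ∀ i, 0 < (x.2 ⊔ y.2) i := fun i => lt_of_lt_of_le (x2 i) le_sup_left
  have t2 : ∀ i, 0 < (x.2 ⊓ y.2) i := fun i => lt_inf_iff.mpr ⟨x2 i, y2 i⟩
  have e1 : gg a b x ≤ gg a b (x.1 ⊔ y.1, x.2 ⊓ y.2) := gg_mono le_sup_left inf_le_left t2
  have e2 : F x ≤ F (x.1 ⊓ y.1, x.2 ⊔ y.2) := hi _ x s1 s2 x1 x2 inf_le_left le_sup_left
  have e3 := fC_four p q x y
  calc fC p q x * gg a b x * F x * fC p q y
      = (fC p q x * fC p q y) * (gg a b x * F x) := by ring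
    _ ≤ (fC p q (x.1 ⊔ y.1, x.2 ⊓ y.2) * fC p q (x.1 ⊓ y.1, x.2 ⊔ y.2)) *
        (gg a b (x.1 ⊔ y.1, x.2 ⊓ y.2) * F (x.1 ⊓ y.1, x.2 ⊔ y.2)) :=
        mul_le_mul' e3 (mul_le_mul' e1 e2)
    _ = _ := by ring

end Pool.Agent.Helper32.BD
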