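import Mathlib
import Pool.Agent.Helper32.BD.Dens

/-! The symmetric density of the Cauchy ensemble (definitions). -/

open Set Filter Topology MeasureTheory Finset
open scoped ENNReal

namespace Pool.Agent.Helper32.BD

open Pool.Agent.Helper28.Eta (mup nu vdm)

noncomputable def SS (a b : ℝ) : ℝ≥0∞ :=
  ENNReal.ofReal (|Real.log b - Real.log a| * |Real.exp (-b) - Real.exp (-a)|)

/-- the symmetric density -/
noncomputable def fS (p q : ℝ → ℝ≥0∞) {N : ℕ} (z : (Fin N → ℝ) × (Fin N → ℝ)) : ℝ≥0∞ :=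
  (∏ i, ∏ j ∈ Ioi i, SS (z.1 i) (z.1 j)) * (∏ i, ∏ j ∈ Ioi i, SS (z.2 i) (z.2 j)) *
    (∏ i, ∏ j, KK (z.1 i) (z.2 j)) * (∏ i, ppos p (z.1 i)) * (∏ j, ppos q (z.2 j))

theorem prod_SS {N : ℕ} (u : Fin N → ℝ) : (∏ i, ∏ j ∈ Ioi i, SS (u i) (u j)) =
    ENNReal.ofReal (|vdm (fun i => Real.log (u i))| * |vdm (fun i => Real.exp (-(u i)))|) := by
  unfold SS vdm
  rw [Finset.abs_prod, Finset.abs_prod, ← Finset.prod_mul_distrib,
    ENNReal.ofReal_prod_of_nonneg (fun i _ => mul_nonneg (abs_nonneg _) (abs_nonneg _))]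
  refine Finset.prod_congr rfl fun i _ => ?_
  rw [Finset.abs_prod, Finset.abs_prod, ← Finset.prod_mul_distrib,
    ENNReal.ofReal_prod_of_nonneg (fun i _ => mul_nonneg (abs_nonneg _) (abs_nonneg _))]

/-- one-particle weight `t^{c-1} e^{-t}` -/
noncomputable def pw (c : ℝ) (t : ℝ) : ℝ≥0∞ := ENNReal.ofReal (t ^ (c - 1) * Real.exp (-t))

theorem measurable_pw (c : ℝ) : Measurable (pw c) := by
  unfold pw
  exact ENNReal.measurable_ofReal.comp ((measurable_id.pow_const _).mul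
    (Real.measurable_exp.comp measurable_id.neg))

/-- `1/(1+e^{-t})` -/
noncomputable def ta (t : ℝ) : ℝ≥0∞ := ENNReal.ofReal (1 / (1 + Real.exp (-t)))

end Pool.Agent.Helper32.BD
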