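import Mathlib
import Pool.Agent.Helper55.BD.Ens
import Pool.Agent.Helper55.BD.Borchardt
import Pool.Agent.Helper32.BD.SDefs
import Pool.Agent.Helper32.BD.Perm

/-! Link between `ZZ` and the symmetric density `fS`. -/

open Set Filter Topology MeasureTheory Finset
open scoped ENNReal

namespace Pool.Agent.Helper32.BD

open Pool.Agent.Helper28.Eta (eta sg mup nu vdm)
open Pool.Agent.Helper55.BD (wgt kd kk em ZZ)

/-- `B_{ij} = (1 + x_i) / (1 + x_i y_j)`, entries in `[1,2]` -/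
noncomputable def BB {N : ℕ} (z : (Fin N → ℝ) × (Fin N → ℝ)) : Matrix (Fin N) (Fin N) ℝ :=
  Matrix.of fun i j => (1 + Real.exp (-(z.1 i))) / (1 + Real.exp (-(z.1 i)) * Real.exp (-(z.2 j)))

theorem ppos_ta (p : ℝ → ℝ≥0∞) (a : ℝ) : ppos (fun t => p t * ta t) a = ppos p a * ta a := by
  unfold ppos
  split_ifs
  · rfl
  · rw [zero_mul]

theorem fS_ta (p q : ℝ → ℝ≥0∞) {N : ℕ} (z : (Fin N → ℝ) × (Fin N → ℝ)) :
    fS (fun t => p t * ta t) q z = fS p q z * ∏ i, ta (z.1 i) := by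
  unfold fS
  have : (∏ i, ppos (fun t => p t * ta t) (z.1 i)) =
      (∏ i, ppos p (z.1 i)) * ∏ i, ta (z.1 i) := by
    rw [← Finset.prod_mul_distrib]
    exact Finset.prod_congr rfl fun i _ => ppos_ta p _
  rw [this]
  ring

theorem prod_ppos_pw {N : ℕ} (c : ℝ) {u : Fin N → ℝ} (h : ∀ i, 0 < u i) :
    (∏ i, ppos (pw c) (u i)) =
      ENNReal.ofReal ((∏ i, u i ^ (c - 1)) * ∏ i, Real.exp (-(u i))) := by
  rw [← Finset.prod_mul_distrib, ENNReal.ofReal_prod_of_nonneg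
    (fun i _ => mul_nonneg (Real.rpow_nonneg (h i).le _) (Real.exp_pos _).le)]
  refine Finset.prod_congr rfl fun i _ => ?_
  exact if_pos (h i)

theorem prod_KK {N : ℕ} (u v : Fin N → ℝ) : (∏ i, ∏ j, KK (u i) (v j)) =
    ENNReal.ofReal (∏ i, ∏ j, 1 / (1 + Real.exp (-(u i)) * Real.exp (-(v j)))) := by
  rw [ENNReal.ofReal_prod_of_nonneg (fun i _ => Finset.prod_nonneg fun j _ => by positivity)]
  refine Finset.prod_congr rfl fun i _ => ?_
  rw [ENNReal.ofReal_prod_of_nonneg (fun j _ => by positivity)]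
  rfl

theorem kd_kk0 {N : ℕ} (u v : Fin N → ℝ) : kd (kk 0) (em u) (em v) =
    (∏ i, Real.exp (-(u i))) * (∏ i, Real.exp (-(v i))) *
      (|vdm (fun i => Real.exp (-(u i)))| * |vdm (fun i => Real.exp (-(v i)))|) *
      ∏ i, ∏ j, 1 / (1 + Real.exp (-(u i)) * Real.exp (-(v j))) := by
  unfold kd
  have h1 : (Matrix.of fun i j => kk 0 (em u i * em v j)) = Matrix.of fun i j =>
      (em u) i * (Matrix.of fun i j => (em v) j *
        (Matrix.of fun i j => 1 / (1 + em u i * em v j)) i j) i j := by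
    ext i j
    simp only [Matrix.of_apply, kk, Nat.factorial_zero, Nat.cast_one, zero_add, pow_one]
    ring
  rw [h1, Matrix.det_mul_column, Matrix.det_mul_row,
    Pool.Agent.Helper28.Eta.cauchy_det (em u) (em v) (fun i => Real.exp_pos _)
      (fun i => Real.exp_pos _)]
  have h2 : (∏ i, ∏ j, 1 / (1 + Real.exp (-(u i)) * Real.exp (-(v j)))) =
      1 / ∏ i, ∏ j, (1 + em u i * em v j) := by
    simp only [one_div, Finset.prod_inv_distrib]
    rfl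
  have hP : 0 < ∏ i, ∏ j, (1 + em u i * em v j) := by
    refine Finset.prod_pos fun i _ => Finset.prod_pos fun j _ => ?_
    unfold Pool.Agent.Helper55.BD.em; positivity
  rw [h2, abs_mul, abs_mul, abs_div, abs_mul, abs_mul, Pool.Agent.Helper28.Eta.sg_abs,
    abs_of_pos hP, abs_of_pos (Finset.prod_pos fun i _ => Real.exp_pos _ : 0 < ∏ i, em u i),
    abs_of_pos (Finset.prod_pos fun i _ => Real.exp_pos _ : 0 < ∏ i, em v i)]
  unfold Pool.Agent.Helper55.BD.em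
  ring

theorem ofReal_kk0 {c₁ c₂ : ℝ} {N : ℕ} {z : (Fin N → ℝ) × (Fin N → ℝ)}
    (h1 : ∀ i, 0 < z.1 i) (h2 : ∀ i, 0 < z.2 i) :
    ENNReal.ofReal (wgt c₁ c₂ z.1 z.2 * kd (kk 0) (em z.1) (em z.2)) =
      fS (pw c₁) (pw c₂) z := by
  unfold fS
  have a1 : 0 ≤ ∏ i, z.1 i ^ (c₁ - 1) := Finset.prod_nonneg fun i _ => Real.rpow_nonneg (h1 i).le _
  have a2 : 0 ≤ ∏ i, z.2 i ^ (c₂ - 1) := Finset.prod_nonneg fun i _ => Real.rpow_nonneg (h2 i).le _
  have a3 : 0 ≤ ∏ i, Real.exp (-(z.1 i)) := Finset.prod_nonneg fun i _ => (Real.exp_pos _).le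
  have a4 : 0 ≤ ∏ i, Real.exp (-(z.2 i)) := Finset.prod_nonneg fun i _ => (Real.exp_pos _).le
  have a5 : 0 ≤ ∏ i, ∏ j, 1 / (1 + Real.exp (-(z.1 i)) * Real.exp (-(z.2 j))) :=
    Finset.prod_nonneg fun i _ => Finset.prod_nonneg fun j _ => by positivity
  rw [prod_SS, prod_SS, prod_KK, prod_ppos_pw c₁ h1, prod_ppos_pw c₂ h2,
    ← ENNReal.ofReal_mul (by positivity), ← ENNReal.ofReal_mul (by positivity),
    ← ENNReal.ofReal_mul (by positivity), ← ENNReal.ofReal_mul (by positivity), kd_kk0]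
  congr 1
  unfold wgt
  ring

theorem perm_BB {N : ℕ} (z : (Fin N → ℝ) × (Fin N → ℝ)) :
    (Matrix.of fun i j => 1 / (1 + em z.1 i * em z.2 j)).permanent =
      (∏ i, 1 / (1 + Real.exp (-(z.1 i)))) * (BB z).permanent := by
  rw [← perm_mul_row]
  congr 1
  ext i j
  simp only [Matrix.of_apply, BB, Pool.Agent.Helper55.BD.em]
  have : (1 + Real.exp (-(z.1 i))) ≠ 0 := by positivity
  have h' : (1 + Real.exp (-(z.1 i)) * Real.exp (-(z.2 j))) ≠ 0 := by positivity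
  field_simp

theorem ofReal_kk1 {c₁ c₂ : ℝ} {N : ℕ} {z : (Fin N → ℝ) × (Fin N → ℝ)}
    (h1 : ∀ i, 0 < z.1 i) (h2 : ∀ i, 0 < z.2 i) :
    ENNReal.ofReal (wgt c₁ c₂ z.1 z.2 * kd (kk 1) (em z.1) (em z.2)) =
      fS (fun t => pw c₁ t * ta t) (pw c₂) z * ENNReal.ofReal (BB z).permanent := by
  rw [fS_ta, ← ofReal_kk0 h1 h2, Pool.Agent.Helper55.BD.kk_one_eq
    (x := em z.1) (y := em z.2) (fun i => Real.exp_pos _) (fun i => Real.exp_pos _), perm_BB, ← mul_assoc, ← mul_assoc]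
  have b1 : 0 ≤ wgt c₁ c₂ z.1 z.2 * kd (kk 0) (em z.1) (em z.2) :=
    mul_nonneg (Pool.Agent.Helper55.BD.wgt_nonneg c₁ c₂ h1 h2)
      (Pool.Agent.Helper55.BD.kd_nonneg _ _ _)
  have b2 : 0 ≤ ∏ i, 1 / (1 + Real.exp (-(z.1 i))) := Finset.prod_nonneg fun i _ => by positivity
  rw [ENNReal.ofReal_mul (mul_nonneg b1 b2), ENNReal.ofReal_mul b1,
    ENNReal.ofReal_prod_of_nonneg (fun i _ => by positivity)]
  rfl

theorem ofReal_ZZ0 (N : ℕ) {c₁ c₂ : ℝ} (h₁ : 0 < c₁) (h₂ : 0 < c₂) :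
    ENNReal.ofReal (ZZ (kk 0) N c₁ c₂) =
      ∫⁻ z, fS (pw c₁) (pw c₂) z ∂((nu N).prod (nu N)) := by
  unfold ZZ
  rw [ofReal_integral_eq_lintegral_ofReal (Pool.Agent.Helper55.BD.integrable_ZZ 0 N h₁ h₂)]
  · refine lintegral_congr_ae ?_
    filter_upwards [Pool.Agent.Helper28.Eta.ae_nunu N] with z hz
    exact ofReal_kk0 hz.1 hz.2
  · filter_upwards [Pool.Agent.Helper28.Eta.ae_nunu N] with z hz
    exact mul_nonneg (Pool.Agent.Helper55.BD.wgt_nonneg c₁ c₂ hz.1 hz.2)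
      (Pool.Agent.Helper55.BD.kd_nonneg _ _ _)

theorem ofReal_ZZ1 (N : ℕ) {c₁ c₂ : ℝ} (h₁ : 0 < c₁) (h₂ : 0 < c₂) :
    ENNReal.ofReal (ZZ (kk 1) N c₁ c₂) =
      ∫⁻ z, fS (fun t => pw c₁ t * ta t) (pw c₂) z * ENNReal.ofReal (BB z).permanent
        ∂((nu N).prod (nu N)) := by
  unfold ZZ
  rw [ofReal_integral_eq_lintegral_ofReal (Pool.Agent.Helper55.BD.integrable_ZZ 1 N h₁ h₂)]
  · refine lintegral_congr_ae ?_
    filter_upwards [Pool.Agent.Helper28.Eta.ae_nunu N] with z hz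
    exact ofReal_kk1 hz.1 hz.2
  · filter_upwards [Pool.Agent.Helper28.Eta.ae_nunu N] with z hz
    exact mul_nonneg (Pool.Agent.Helper55.BD.wgt_nonneg c₁ c₂ hz.1 hz.2)
      (Pool.Agent.Helper55.BD.kd_nonneg _ _ _)

end Pool.Agent.Helper32.BD
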