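import Mathlib
import Pool.Agent.Helper32.BD.SDefs

/-! Removal of a pair from the symmetric Cauchy ensemble. -/

open Set Filter Topology MeasureTheory Finset
open scoped ENNReal

namespace Pool.Agent.Helper32.BD

open Pool.Agent.Helper28.Eta (mup nu vdm)

theorem vdm_eq_det {N : ℕ} (f : Fin N → ℝ) : vdm f = (Matrix.vandermonde f).det := by
  rw [Matrix.det_vandermonde]; rfl

theorem abs_vdm_perm {N : ℕ} (f : Fin N → ℝ) (σ : Equiv.Perm (Fin N)) :
    |vdm (fun i => f (σ i))| = |vdm f| := by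
  rw [vdm_eq_det, vdm_eq_det]
  have : Matrix.vandermonde (fun i => f (σ i)) = (Matrix.vandermonde f).submatrix σ id := by
    ext i j
    simp [Matrix.vandermonde_apply]
  rw [this, Matrix.det_permute, abs_mul]
  have hs : |((Equiv.Perm.sign σ : ℤ) : ℝ)| = 1 := by
    rcases Int.units_eq_one_or (Equiv.Perm.sign σ) with h | h <;> simp [h]
  rw [hs, one_mul]

theorem prod_SS_perm {N : ℕ} (u : Fin N → ℝ) (σ : Equiv.Perm (Fin N)) :
    (∏ i, ∏ j ∈ Ioi i, SS (u (σ i)) (u (σ j))) = ∏ i, ∏ j ∈ Ioi i, SS (u i) (u j) := by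
  have h := prod_SS (fun i => u (σ i))
  rw [h, prod_SS, abs_vdm_perm (fun i => Real.log (u i)) σ,
    abs_vdm_perm (fun i => Real.exp (-(u i))) σ]

/-- symmetric functions -/
def Symm {N : ℕ} (F : (Fin N → ℝ) × (Fin N → ℝ) → ℝ≥0∞) : Prop :=
  (∀ (σ : Equiv.Perm (Fin N)) z, F (z.1 ∘ σ, z.2) = F z) ∧
    ∀ (σ : Equiv.Perm (Fin N)) z, F (z.1, z.2 ∘ σ) = F z

theorem Symm.mul {N : ℕ} {F G : (Fin N → ℝ) × (Fin N → ℝ) → ℝ≥0∞} (hF : Symm F) (hG : Symm G) :
    Symm (fun z => F z * G z) :=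
  ⟨fun σ z => by simp only; rw [hF.1, hG.1], fun σ z => by simp only; rw [hF.2, hG.2]⟩

theorem Symm.one {N : ℕ} : Symm (fun _ : (Fin N → ℝ) × (Fin N → ℝ) => (1 : ℝ≥0∞)) :=
  ⟨fun _ _ => rfl, fun _ _ => rfl⟩

theorem symm_fS (p q : ℝ → ℝ≥0∞) (N : ℕ) :
    Symm (fun z : (Fin N → ℝ) × (Fin N → ℝ) => fS p q z) := by
  constructor
  · intro σ z
    unfold fS
    simp only [Function.comp_apply]
    rw [prod_SS_perm z.1 σ, Equiv.prod_comp σ (fun i => ppos p (z.1 i)),
      Equiv.prod_comp σ (fun i => ∏ j, KK (z.1 i) (z.2 j))]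
  · intro σ z
    unfold fS
    simp only [Function.comp_apply]
    rw [prod_SS_perm z.2 σ, Equiv.prod_comp σ (fun i => ppos q (z.2 i))]
    have : ∀ i, ∏ j, KK (z.1 i) (z.2 (σ j)) = ∏ j, KK (z.1 i) (z.2 j) :=
      fun i => Equiv.prod_comp σ (fun j => KK (z.1 i) (z.2 j))
    simp_rw [this]

theorem measurable_SS : Measurable (fun r : ℝ × ℝ => SS r.1 r.2) := by
  unfold SS
  refine ENNReal.measurable_ofReal.comp ?_
  have h1 : Measurable (fun r : ℝ × ℝ => Real.log r.2 - Real.log r.1) :=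
    (Real.measurable_log.comp measurable_snd).sub (Real.measurable_log.comp measurable_fst)
  have h2 : Measurable (fun r : ℝ × ℝ => Real.exp (-r.2) - Real.exp (-r.1)) :=
    (Real.measurable_exp.comp measurable_snd.neg).sub (Real.measurable_exp.comp measurable_fst.neg)
  exact (continuous_abs.measurable.comp h1).mul (continuous_abs.measurable.comp h2)

theorem meas_SS_comp {α : Type*} [MeasurableSpace α] {f g : α → ℝ} (hf : Measurable f) (hg : Measurable g) :
    Measurable (fun z => SS (f z) (g z)) := measurable_SS.comp (hf.prodMk hg)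

theorem meas_KK_comp {α : Type*} [MeasurableSpace α] {f g : α → ℝ} (hf : Measurable f) (hg : Measurable g) :
    Measurable (fun z => KK (f z) (g z)) := measurable_KK.comp (hf.prodMk hg)

theorem meas_fS1 (N : ℕ) : Measurable (fun z : (Fin N → ℝ) × (Fin N → ℝ) =>
      ∏ i, ∏ j ∈ Ioi i, SS (z.1 i) (z.1 j)) := by
  have m1 : ∀ i : Fin N, Measurable (fun z : (Fin N → ℝ) × (Fin N → ℝ) => z.1 i) :=
    fun i => (measurable_pi_apply i).comp measurable_fst
  exact Finset.measurable_prod _ fun i _ => Finset.measurable_prod _ fun j _ =>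
      meas_SS_comp (m1 i) (m1 j)
theorem meas_fS2 (N : ℕ) : Measurable (fun z : (Fin N → ℝ) × (Fin N → ℝ) =>
      ∏ i, ∏ j ∈ Ioi i, SS (z.2 i) (z.2 j)) := by
  have m2 : ∀ i : Fin N, Measurable (fun z : (Fin N → ℝ) × (Fin N → ℝ) => z.2 i) :=
    fun i => (measurable_pi_apply i).comp measurable_snd
  exact Finset.measurable_prod _ fun i _ => Finset.measurable_prod _ fun j _ =>
      meas_SS_comp (m2 i) (m2 j)
theorem meas_fS3 (N : ℕ) : Measurable (fun z : (Fin N → ℝ) × (Fin N → ℝ) => ∏ i, ∏ j, KK (z.1 i) (z.2 j)) := by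
  have m1 : ∀ i : Fin N, Measurable (fun z : (Fin N → ℝ) × (Fin N → ℝ) => z.1 i) :=
    fun i => (measurable_pi_apply i).comp measurable_fst
  have m2 : ∀ i : Fin N, Measurable (fun z : (Fin N → ℝ) × (Fin N → ℝ) => z.2 i) :=
    fun i => (measurable_pi_apply i).comp measurable_snd
  exact Finset.measurable_prod _ fun i _ => Finset.measurable_prod _ fun j _ =>
      meas_KK_comp (m1 i) (m2 j)
theorem measurable_fS {p q : ℝ → ℝ≥0∞} (hp : Measurable p) (hq : Measurable q) (N : ℕ) :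
    Measurable (fun z : (Fin N → ℝ) × (Fin N → ℝ) => fS p q z) := by
  have m1 : ∀ i : Fin N, Measurable (fun z : (Fin N → ℝ) × (Fin N → ℝ) => z.1 i) :=
    fun i => (measurable_pi_apply i).comp measurable_fst
  have m2 : ∀ i : Fin N, Measurable (fun z : (Fin N → ℝ) × (Fin N → ℝ) => z.2 i) :=
    fun i => (measurable_pi_apply i).comp measurable_snd
  have h4 : Measurable (fun z : (Fin N → ℝ) × (Fin N → ℝ) => ∏ i, ppos p (z.1 i)) :=
    Finset.measurable_prod _ fun i _ => (measurable_ppos hp).comp (m1 i)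
  have h5 : Measurable (fun z : (Fin N → ℝ) × (Fin N → ℝ) => ∏ i, ppos q (z.2 i)) :=
    Finset.measurable_prod _ fun i _ => (measurable_ppos hq).comp (m2 i)
  have := ((((meas_fS1 N).mul (meas_fS2 N)).mul (meas_fS3 N)).mul h4).mul h5
  unfold fS
  exact this

theorem SS_symm (a b : ℝ) : SS a b = SS b a := by
  unfold SS
  rw [abs_sub_comm, abs_sub_comm (Real.exp (-b))]

theorem SS_eq_PP {a b : ℝ} (ha : 0 < a) (hab : a < b) : SS a b = PP a b := by
  rw [PP_of ha hab]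
  unfold SS
  rw [abs_of_nonneg (log_sub_nonneg ha hab.le), abs_sub_comm (Real.exp (-b)),
    abs_of_nonneg (exp_sub_nonneg hab.le)]

theorem fS_eq_fC {p q : ℝ → ℝ≥0∞} {N : ℕ} {z : (Fin N → ℝ) × (Fin N → ℝ)}
    (h1 : StrictMono z.1) (h2 : StrictAnti z.2) : fS p q z = fC p q z := by
  by_cases hp : ∀ i, 0 < z.1 i
  · by_cases hq : ∀ i, 0 < z.2 i
    · unfold fS fC
      have e1 : (∏ i, ∏ j ∈ Ioi i, SS (z.1 i) (z.1 j)) = ∏ i, ∏ j ∈ Ioi i, PP (z.1 i) (z.1 j) :=
        Finset.prod_congr rfl fun i _ => Finset.prod_congr rfl fun j hj =>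
          SS_eq_PP (hp i) (h1 (Finset.mem_Ioi.mp hj))
      have e2 : (∏ i, ∏ j ∈ Ioi i, SS (z.2 i) (z.2 j)) = ∏ i, ∏ j ∈ Ioi i, PP (z.2 j) (z.2 i) :=
        Finset.prod_congr rfl fun i _ => Finset.prod_congr rfl fun j hj => by
          rw [SS_symm]; exact SS_eq_PP (hq j) (h2 (Finset.mem_Ioi.mp hj))
      rw [e1, e2]
    · push Not at hq
      obtain ⟨i, hi⟩ := hq
      have : ppos q (z.2 i) = 0 := if_neg (not_lt.mpr hi)
      have h3 : (∏ i, ppos q (z.2 i)) = 0 := Finset.prod_eq_zero (Finset.mem_univ i) this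
      unfold fS fC
      rw [h3]; simp
  · push Not at hp
    obtain ⟨i, hi⟩ := hp
    have : ppos p (z.1 i) = 0 := if_neg (not_lt.mpr hi)
    have h3 : (∏ i, ppos p (z.1 i)) = 0 := Finset.prod_eq_zero (Finset.mem_univ i) this
    unfold fS fC
    rw [h3]; simp

theorem lintegral_pair_chamber {N : ℕ} {H : (Fin N → ℝ) × (Fin N → ℝ) → ℝ≥0∞} (hH : Measurable H)
    (hs : Symm H) : ∫⁻ z, H z ∂((nu N).prod (nu N)) = ((N.factorial : ℝ≥0∞) * (N.factorial : ℝ≥0∞)) *
      ∫⁻ z, ({z : (Fin N → ℝ) × (Fin N → ℝ) | StrictMono z.1 ∧ StrictAnti z.2}.indicator H) z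
        ∂((nu N).prod (nu N)) := by
  have hS1 := measurableSet_strictMono N
  have hS2 := measurableSet_strictAnti N
  set S1 : Set (Fin N → ℝ) := {u | StrictMono u} with hS1d
  set S2 : Set (Fin N → ℝ) := {u | StrictAnti u} with hS2d
  have hSS : {z : (Fin N → ℝ) × (Fin N → ℝ) | StrictMono z.1 ∧ StrictAnti z.2} = S1 ×ˢ S2 := rfl
  rw [hSS]
  have hmS : Measurable ((S1 ×ˢ S2).indicator H) := hH.indicator (hS1.prod hS2)
  rw [lintegral_prod _ hH.aemeasurable, lintegral_prod _ hmS.aemeasurable]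
  have e1 : ∀ u : Fin N → ℝ, ∫⁻ v, H (u, v) ∂(nu N) = (N.factorial : ℝ≥0∞) *
      ∫⁻ v, S2.indicator (fun v => H (u, v)) v ∂(nu N) := by
    intro u
    exact lintegral_chamber_aux S2 hS2 (fun v hv => exists_unique_anti hv)
      (hH.comp measurable_prodMk_left) (fun σ v => hs.2 σ (u, v))
  simp_rw [e1]
  have hmeas2 : Measurable (fun u : Fin N → ℝ => ∫⁻ v, S2.indicator (fun v => H (u, v)) v ∂(nu N)) := by
    have : Measurable (fun z : (Fin N → ℝ) × (Fin N → ℝ) => S2.indicator (fun v => H (z.1, v)) z.2) := by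
      have h : (fun z : (Fin N → ℝ) × (Fin N → ℝ) => S2.indicator (fun v => H (z.1, v)) z.2) =
          (Set.univ ×ˢ S2).indicator H := by
        funext z
        by_cases hz : z.2 ∈ S2
        · rw [Set.indicator_of_mem hz, Set.indicator_of_mem (show z ∈ Set.univ ×ˢ S2 from ⟨trivial, hz⟩)]
        · rw [Set.indicator_of_notMem hz,
            Set.indicator_of_notMem (show z ∉ Set.univ ×ˢ S2 from fun hc => hz hc.2)]
      rw [h]
      exact hH.indicator (MeasurableSet.univ.prod hS2)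
    exact this.lintegral_prod_right'
  rw [lintegral_const_mul _ hmeas2]
  have e2 := lintegral_chamber_aux S1 hS1 (fun v hv => exists_unique_mono hv) hmeas2
    (fun σ u => by
      have : ∀ v, H (u ∘ σ, v) = H (u, v) := fun v => hs.1 σ (u, v)
      simp_rw [this])
  rw [e2, mul_assoc]
  congr 2
  refine lintegral_congr fun u => ?_
  by_cases hu : u ∈ S1
  · rw [Set.indicator_of_mem hu]
    refine lintegral_congr fun v => ?_
    by_cases hv : v ∈ S2
    · rw [Set.indicator_of_mem hv, Set.indicator_of_mem (show (u, v) ∈ S1 ×ˢ S2 from ⟨hu, hv⟩)]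
    · rw [Set.indicator_of_notMem hv,
        Set.indicator_of_notMem (show (u, v) ∉ S1 ×ˢ S2 from fun hc => hv hc.2)]
  · rw [Set.indicator_of_notMem hu]
    have : ∀ v, (S1 ×ˢ S2).indicator H (u, v) = 0 := fun v =>
      Set.indicator_of_notMem (fun hc => hu hc.1) _
    simp_rw [this]
    simp

theorem lintegral_fS {p q : ℝ → ℝ≥0∞} (hp : Measurable p) (hq : Measurable q) {N : ℕ}
    {F : (Fin N → ℝ) × (Fin N → ℝ) → ℝ≥0∞} (hF : Measurable F) (hs : Symm F) :
    ∫⁻ z, fS p q z * F z ∂((nu N).prod (nu N)) = ((N.factorial : ℝ≥0∞) * (N.factorial : ℝ≥0∞)) *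
      ∫⁻ z, fC p q z * F z ∂((nu N).prod (nu N)) := by
  have hm : Measurable (fun z : (Fin N → ℝ) × (Fin N → ℝ) => fS p q z * F z) :=
    (measurable_fS hp hq N).mul hF
  rw [lintegral_pair_chamber (H := fun z => fS p q z * F z) hm ((symm_fS p q N).mul hs)]
  congr 1
  refine lintegral_congr fun z => ?_
  by_cases hz : StrictMono z.1 ∧ StrictAnti z.2
  · rw [Set.indicator_of_mem (show z ∈ {z : (Fin N → ℝ) × (Fin N → ℝ) | StrictMono z.1 ∧ StrictAnti z.2}
      from hz), fS_eq_fC hz.1 hz.2]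
  · rw [Set.indicator_of_notMem (show z ∉ {z : (Fin N → ℝ) × (Fin N → ℝ) |
      StrictMono z.1 ∧ StrictAnti z.2} from hz)]
    by_contra hc
    have : fC p q z ≠ 0 := fun h0 => hc (by rw [h0, zero_mul])
    exact hz (chamber_of_fC_ne_zero this)

theorem measurable_cons2 (N : ℕ) : Measurable (fun r : (ℝ × ℝ) × ((Fin N → ℝ) × (Fin N → ℝ)) =>
    ((Fin.cons r.1.1 r.2.1 : Fin (N + 1) → ℝ), (Fin.cons r.1.2 r.2.2 : Fin (N + 1) → ℝ))) := by
  refine Measurable.prodMk ?_ ?_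
  · refine measurable_pi_iff.mpr fun i => ?_
    induction i using Fin.cases with
    | zero => exact measurable_fst.fst
    | succ i => exact (measurable_pi_apply i).comp measurable_snd.fst
  · refine measurable_pi_iff.mpr fun i => ?_
    induction i using Fin.cases with
    | zero => exact measurable_fst.snd
    | succ i => exact (measurable_pi_apply i).comp measurable_snd.snd

theorem lintegral_cons2 {N : ℕ} {H : (Fin (N + 1) → ℝ) × (Fin (N + 1) → ℝ) → ℝ≥0∞}
    (hH : Measurable H) : ∫⁻ z, H z ∂((nu (N + 1)).prod (nu (N + 1))) =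
      ∫⁻ r, ∫⁻ z, H ((Fin.cons r.1 z.1 : Fin (N + 1) → ℝ), (Fin.cons r.2 z.2 : Fin (N + 1) → ℝ))
        ∂((nu N).prod (nu N)) ∂(mup.prod mup) := by
  have hm := hH.comp (measurable_cons2 N)
  rw [lintegral_prod _ hH.aemeasurable]
  have hin : Measurable fun u : Fin (N + 1) → ℝ => ∫⁻ v, H (u, v) ∂(nu (N + 1)) :=
    hH.lintegral_prod_right'
  rw [lintegral_cons hin]
  have h1 : ∀ a u, ∫⁻ v, H ((Fin.cons a u : Fin (N + 1) → ℝ), v) ∂(nu (N + 1)) =
      ∫⁻ b, ∫⁻ v, H ((Fin.cons a u : Fin (N + 1) → ℝ), (Fin.cons b v : Fin (N + 1) → ℝ))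
        ∂(nu N) ∂mup := fun a u => lintegral_cons (hH.comp measurable_prodMk_left)
  simp_rw [h1]
  have hr : Measurable fun r : ℝ × ℝ => ∫⁻ z, H ((Fin.cons r.1 z.1 : Fin (N + 1) → ℝ),
      (Fin.cons r.2 z.2 : Fin (N + 1) → ℝ)) ∂((nu N).prod (nu N)) := hm.lintegral_prod_right'
  rw [lintegral_prod _ hr.aemeasurable]
  refine lintegral_congr fun a => ?_
  have hsw : Measurable fun w : (Fin N → ℝ) × ℝ => ∫⁻ v, H ((Fin.cons a w.1 : Fin (N + 1) → ℝ),
      (Fin.cons w.2 v : Fin (N + 1) → ℝ)) ∂(nu N) := by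
    have hmm : Measurable fun w : ((Fin N → ℝ) × ℝ) × (Fin N → ℝ) =>
        H ((Fin.cons a w.1.1 : Fin (N + 1) → ℝ), (Fin.cons w.1.2 w.2 : Fin (N + 1) → ℝ)) := by
      have : Measurable fun w : ((Fin N → ℝ) × ℝ) × (Fin N → ℝ) =>
          (((a, w.1.2), (w.1.1, w.2)) : (ℝ × ℝ) × ((Fin N → ℝ) × (Fin N → ℝ))) :=
        (measurable_const.prodMk measurable_fst.snd).prodMk (measurable_fst.fst.prodMk measurable_snd)
      exact hm.comp this
    exact hmm.lintegral_prod_right'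
  rw [lintegral_lintegral_swap hsw.aemeasurable]
  refine lintegral_congr fun b => ?_
  have hz : Measurable fun z : (Fin N → ℝ) × (Fin N → ℝ) => H ((Fin.cons a z.1 : Fin (N + 1) → ℝ),
      (Fin.cons b z.2 : Fin (N + 1) → ℝ)) := by
    have h' : Measurable fun z : (Fin N → ℝ) × (Fin N → ℝ) =>
        (((a, b), z) : (ℝ × ℝ) × ((Fin N → ℝ) × (Fin N → ℝ))) :=
      measurable_const.prodMk measurable_id
    exact hm.comp h'
  rw [lintegral_prod _ hz.aemeasurable]

theorem removal_incr {p q : ℝ → ℝ≥0∞} (hp : Measurable p) (hq : Measurable q) {N : ℕ}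
    {F : (Fin N → ℝ) × (Fin N → ℝ) → ℝ≥0∞} (hF : Measurable F) (hFs : Symm F) (hi : Incr F)
    {G : (Fin (N + 1) → ℝ) × (Fin (N + 1) → ℝ) → ℝ≥0∞} (hG : Measurable G) (hGs : Symm G)
    (κ : ℝ≥0∞) (hκ : ∀ (a b : ℝ) (z : (Fin N → ℝ) × (Fin N → ℝ)), 0 < a → 0 < b →
      (∀ i, 0 < z.1 i) → (∀ i, 0 < z.2 i) →
      κ * F z ≤ G ((Fin.cons a z.1 : Fin (N + 1) → ℝ), (Fin.cons b z.2 : Fin (N + 1) → ℝ))) :
    κ * ((∫⁻ z, fS p q z * F z ∂((nu N).prod (nu N))) *
        ∫⁻ z, fS p q z ∂((nu (N + 1)).prod (nu (N + 1)))) ≤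
      (∫⁻ z, fS p q z ∂((nu N).prod (nu N))) *
        ∫⁻ z, fS p q z * G z ∂((nu (N + 1)).prod (nu (N + 1))) := by
  have hS : ∀ M : ℕ, ∫⁻ z, fS p q z ∂((nu M).prod (nu M)) =
      ((M.factorial : ℝ≥0∞) * (M.factorial : ℝ≥0∞)) *
        ∫⁻ z, fC p q z ∂((nu M).prod (nu M)) := by
    intro M
    have := lintegral_fS hp hq (N := M) (F := fun _ => 1) measurable_const Symm.one
    simpa using this
  rw [lintegral_fS hp hq hF hFs, lintegral_fS hp hq hG hGs, hS N, hS (N + 1)]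
  have hf := measurable_fC hp hq N
  have hf' := measurable_fC hp hq (N + 1)
  set I1 := ∫⁻ z, fC p q z ∂((nu N).prod (nu N)) with hI1
  set IF := ∫⁻ z, fC p q z * F z ∂((nu N).prod (nu N)) with hIF
  have key : κ * (IF * ∫⁻ z, fC p q z ∂((nu (N + 1)).prod (nu (N + 1)))) ≤
      I1 * ∫⁻ z, fC p q z * G z ∂((nu (N + 1)).prod (nu (N + 1))) := by
    have hfG : Measurable (fun z : (Fin (N + 1) → ℝ) × (Fin (N + 1) → ℝ) => fC p q z * G z) :=
      hf'.mul hG
    rw [lintegral_cons2 hf', lintegral_cons2 (H := fun z => fC p q z * G z) hfG]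
    have hr1 : Measurable fun r : ℝ × ℝ => ∫⁻ z, fC p q ((Fin.cons r.1 z.1 : Fin (N + 1) → ℝ),
        (Fin.cons r.2 z.2 : Fin (N + 1) → ℝ)) ∂((nu N).prod (nu N)) :=
      (hf'.comp (measurable_cons2 N)).lintegral_prod_right'
    have hr2 : Measurable fun r : ℝ × ℝ => ∫⁻ z, fC p q ((Fin.cons r.1 z.1 : Fin (N + 1) → ℝ),
        (Fin.cons r.2 z.2 : Fin (N + 1) → ℝ)) * G ((Fin.cons r.1 z.1 : Fin (N + 1) → ℝ),
        (Fin.cons r.2 z.2 : Fin (N + 1) → ℝ)) ∂((nu N).prod (nu N)) :=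
      ((hf'.mul hG).comp (measurable_cons2 N)).lintegral_prod_right'
    rw [← mul_assoc, ← lintegral_const_mul _ hr1, ← lintegral_const_mul _ hr2]
    refine lintegral_mono fun r => ?_
    simp only [fC_cons]
    have hfg : Measurable (fun z : (Fin N → ℝ) × (Fin N → ℝ) => fC p q z * gg r.1 r.2 z) :=
      hf.mul (measurable_gg r.1 r.2 N)
    simp only [Prod.mk.eta]
    rw [lintegral_const_mul _ hfg]
    set c := KK r.1 r.2 * ppos p r.1 * ppos q r.2 with hc
    by_cases hc0 : c = 0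
    · rw [hc0]; simp
    have ha : 0 < r.1 := by
      by_contra hcon
      apply hc0
      rw [hc]
      have : ppos p r.1 = 0 := if_neg hcon
      rw [this]; simp
    have hb : 0 < r.2 := by
      by_contra hcon
      apply hc0
      rw [hc]
      have : ppos q r.2 = 0 := if_neg hcon
      rw [this]; simp
    have step1 : ∫⁻ z, c * (fC p q z * gg r.1 r.2 z) * (κ * F z)
          ∂((nu N).prod (nu N)) ≤
        ∫⁻ z, c * (fC p q z * gg r.1 r.2 z) *
          G ((Fin.cons r.1 z.1 : Fin (N + 1) → ℝ), (Fin.cons r.2 z.2 : Fin (N + 1) → ℝ))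
          ∂((nu N).prod (nu N)) := by
      refine lintegral_mono_ae ?_
      filter_upwards [Pool.Agent.Helper28.Eta.ae_nunu N] with z hz
      exact mul_le_mul' le_rfl (hκ r.1 r.2 z ha hb hz.1 hz.2)
    refine le_trans ?_ (mul_le_mul' le_rfl step1)
    have step2 : ∫⁻ z, c * (fC p q z * gg r.1 r.2 z) * (κ * F z)
          ∂((nu N).prod (nu N)) =
        (c * κ) * ∫⁻ z, fC p q z * gg r.1 r.2 z * F z ∂((nu N).prod (nu N)) := by
      have hfgF : Measurable (fun z : (Fin N → ℝ) × (Fin N → ℝ) =>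
          fC p q z * gg r.1 r.2 z * F z) := hfg.mul hF
      rw [← lintegral_const_mul _ hfgF]
      refine lintegral_congr fun z => ?_
      ring
    rw [step2]
    have hfkg := fkg_incr hp hq r.1 r.2 hF hi
    calc κ * IF * (c * ∫⁻ z, fC p q z * gg r.1 r.2 z ∂((nu N).prod (nu N)))
        = (c * κ) * ((∫⁻ z, fC p q z * gg r.1 r.2 z ∂((nu N).prod (nu N))) * IF) := by
          ring
      _ ≤ (c * κ) * ((∫⁻ z, fC p q z * gg r.1 r.2 z * F z ∂((nu N).prod (nu N))) * I1) :=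
          mul_le_mul' le_rfl hfkg
      _ = _ := by ring
  calc _ = (((N.factorial : ℝ≥0∞) * (N.factorial : ℝ≥0∞)) *
        (((N + 1).factorial : ℝ≥0∞) * ((N + 1).factorial : ℝ≥0∞))) *
        (κ * (IF * ∫⁻ z, fC p q z ∂((nu (N + 1)).prod (nu (N + 1))))) := by ring
    _ ≤ (((N.factorial : ℝ≥0∞) * (N.factorial : ℝ≥0∞)) *
        (((N + 1).factorial : ℝ≥0∞) * ((N + 1).factorial : ℝ≥0∞))) *
        (I1 * ∫⁻ z, fC p q z * G z ∂((nu (N + 1)).prod (nu (N + 1)))) := mul_le_mul' le_rfl key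
    _ = _ := by ring

theorem removal_decr {p q : ℝ → ℝ≥0∞} (hp : Measurable p) (hq : Measurable q) {N : ℕ}
    {F : (Fin N → ℝ) × (Fin N → ℝ) → ℝ≥0∞} (hF : Measurable F) (hFs : Symm F) (hi : Decr F)
    {G : (Fin (N + 1) → ℝ) × (Fin (N + 1) → ℝ) → ℝ≥0∞} (hG : Measurable G) (hGs : Symm G)
    (κ : ℝ≥0∞) (hκ : ∀ (a b : ℝ) (z : (Fin N → ℝ) × (Fin N → ℝ)), 0 < a → 0 < b →
      (∀ i, 0 < z.1 i) → (∀ i, 0 < z.2 i) →
      G ((Fin.cons a z.1 : Fin (N + 1) → ℝ), (Fin.cons b z.2 : Fin (N + 1) → ℝ)) ≤ κ * F z) :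
    (∫⁻ z, fS p q z ∂((nu N).prod (nu N))) *
        (∫⁻ z, fS p q z * G z ∂((nu (N + 1)).prod (nu (N + 1)))) ≤
      κ * ((∫⁻ z, fS p q z * F z ∂((nu N).prod (nu N))) *
        ∫⁻ z, fS p q z ∂((nu (N + 1)).prod (nu (N + 1)))) := by
  have hS : ∀ M : ℕ, ∫⁻ z, fS p q z ∂((nu M).prod (nu M)) =
      ((M.factorial : ℝ≥0∞) * (M.factorial : ℝ≥0∞)) *
        ∫⁻ z, fC p q z ∂((nu M).prod (nu M)) := by
    intro M
    have := lintegral_fS hp hq (N := M) (F := fun _ => 1) measurable_const Symm.one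
    simpa using this
  rw [lintegral_fS hp hq hF hFs, lintegral_fS hp hq hG hGs, hS N, hS (N + 1)]
  have hf := measurable_fC hp hq N
  have hf' := measurable_fC hp hq (N + 1)
  set I1 := ∫⁻ z, fC p q z ∂((nu N).prod (nu N)) with hI1
  set IF := ∫⁻ z, fC p q z * F z ∂((nu N).prod (nu N)) with hIF
  have key : I1 * ∫⁻ z, fC p q z * G z ∂((nu (N + 1)).prod (nu (N + 1))) ≤
      κ * (IF * ∫⁻ z, fC p q z ∂((nu (N + 1)).prod (nu (N + 1)))) := by
    have hfG : Measurable (fun z : (Fin (N + 1) → ℝ) × (Fin (N + 1) → ℝ) => fC p q z * G z) :=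
      hf'.mul hG
    rw [lintegral_cons2 hf', lintegral_cons2 (H := fun z => fC p q z * G z) hfG]
    have hr1 : Measurable fun r : ℝ × ℝ => ∫⁻ z, fC p q ((Fin.cons r.1 z.1 : Fin (N + 1) → ℝ),
        (Fin.cons r.2 z.2 : Fin (N + 1) → ℝ)) ∂((nu N).prod (nu N)) :=
      (hf'.comp (measurable_cons2 N)).lintegral_prod_right'
    have hr2 : Measurable fun r : ℝ × ℝ => ∫⁻ z, fC p q ((Fin.cons r.1 z.1 : Fin (N + 1) → ℝ),
        (Fin.cons r.2 z.2 : Fin (N + 1) → ℝ)) * G ((Fin.cons r.1 z.1 : Fin (N + 1) → ℝ),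
        (Fin.cons r.2 z.2 : Fin (N + 1) → ℝ)) ∂((nu N).prod (nu N)) :=
      ((hf'.mul hG).comp (measurable_cons2 N)).lintegral_prod_right'
    rw [← mul_assoc, ← lintegral_const_mul _ hr1, ← lintegral_const_mul _ hr2]
    refine lintegral_mono fun r => ?_
    simp only [fC_cons]
    have hfg : Measurable (fun z : (Fin N → ℝ) × (Fin N → ℝ) => fC p q z * gg r.1 r.2 z) :=
      hf.mul (measurable_gg r.1 r.2 N)
    simp only [Prod.mk.eta]
    rw [lintegral_const_mul _ hfg]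
    set c := KK r.1 r.2 * ppos p r.1 * ppos q r.2 with hc
    by_cases hc0 : c = 0
    · rw [hc0]; simp
    have ha : 0 < r.1 := by
      by_contra hcon
      apply hc0
      rw [hc]
      have : ppos p r.1 = 0 := if_neg hcon
      rw [this]; simp
    have hb : 0 < r.2 := by
      by_contra hcon
      apply hc0
      rw [hc]
      have : ppos q r.2 = 0 := if_neg hcon
      rw [this]; simp
    have step1 : ∫⁻ z, c * (fC p q z * gg r.1 r.2 z) *
          G ((Fin.cons r.1 z.1 : Fin (N + 1) → ℝ), (Fin.cons r.2 z.2 : Fin (N + 1) → ℝ))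
          ∂((nu N).prod (nu N)) ≤
        ∫⁻ z, c * (fC p q z * gg r.1 r.2 z) * (κ * F z)
          ∂((nu N).prod (nu N)) := by
      refine lintegral_mono_ae ?_
      filter_upwards [Pool.Agent.Helper28.Eta.ae_nunu N] with z hz
      exact mul_le_mul' le_rfl (hκ r.1 r.2 z ha hb hz.1 hz.2)
    refine le_trans (mul_le_mul' le_rfl step1) ?_
    have step2 : ∫⁻ z, c * (fC p q z * gg r.1 r.2 z) * (κ * F z)
          ∂((nu N).prod (nu N)) =
        (c * κ) * ∫⁻ z, fC p q z * gg r.1 r.2 z * F z ∂((nu N).prod (nu N)) := by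
      have hfgF : Measurable (fun z : (Fin N → ℝ) × (Fin N → ℝ) =>
          fC p q z * gg r.1 r.2 z * F z) := hfg.mul hF
      rw [← lintegral_const_mul _ hfgF]
      refine lintegral_congr fun z => ?_
      ring
    rw [step2]
    have hfkg := fkg_decr hp hq r.1 r.2 hF hi
    calc I1 * (c * κ * ∫⁻ z, fC p q z * gg r.1 r.2 z * F z ∂((nu N).prod (nu N)))
        = (c * κ) * ((∫⁻ z, fC p q z * gg r.1 r.2 z * F z ∂((nu N).prod (nu N))) * I1) := by ring
      _ ≤ (c * κ) * ((∫⁻ z, fC p q z * gg r.1 r.2 z ∂((nu N).prod (nu N))) * IF) :=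
          mul_le_mul' le_rfl hfkg
      _ = _ := by ring
  calc _ = (((N.factorial : ℝ≥0∞) * (N.factorial : ℝ≥0∞)) *
        (((N + 1).factorial : ℝ≥0∞) * ((N + 1).factorial : ℝ≥0∞))) *
        (I1 * ∫⁻ z, fC p q z * G z ∂((nu (N + 1)).prod (nu (N + 1)))) := by ring
    _ ≤ (((N.factorial : ℝ≥0∞) * (N.factorial : ℝ≥0∞)) *
        (((N + 1).factorial : ℝ≥0∞) * ((N + 1).factorial : ℝ≥0∞))) *
        (κ * (IF * ∫⁻ z, fC p q z ∂((nu (N + 1)).prod (nu (N + 1))))) := mul_le_mul' le_rfl key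
    _ = _ := by ring

end Pool.Agent.Helper32.BD
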