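import Mathlib
import Pool.Agent.Helper32.BD.Link
import Pool.Agent.Helper32.BD.Removal

/-! Assembly of the bound (Q). -/

open Set Filter Topology MeasureTheory Finset
open scoped ENNReal

namespace Pool.Agent.Helper32.BD

open Pool.Agent.Helper28.Eta (eta sg mup nu vdm)
open Pool.Agent.Helper55.BD (wgt kd kk em ZZ)

theorem BB_apply {N : ℕ} (z : (Fin N → ℝ) × (Fin N → ℝ)) (i j : Fin N) : BB z i j =
    (1 + Real.exp (-(z.1 i))) / (1 + Real.exp (-(z.1 i)) * Real.exp (-(z.2 j))) := rfl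

theorem exp_neg_lt_one {t : ℝ} (h : 0 < t) : Real.exp (-t) < 1 := by
  rw [Real.exp_lt_one_iff]; linarith

theorem BB_one_le {N : ℕ} {z : (Fin N → ℝ) × (Fin N → ℝ)} (h2 : ∀ i, 0 < z.2 i) (i j : Fin N) :
    1 ≤ BB z i j := by
  rw [BB_apply]
  have hx := Real.exp_pos (-(z.1 i))
  have hy := Real.exp_pos (-(z.2 j))
  have hy1 := exp_neg_lt_one (h2 j)
  rw [le_div_iff₀ (by positivity)]
  nlinarith

theorem BB_le_two {N : ℕ} {z : (Fin N → ℝ) × (Fin N → ℝ)} (h1 : ∀ i, 0 < z.1 i) (i j : Fin N) :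
    BB z i j ≤ 2 := by
  rw [BB_apply]
  have hx := Real.exp_pos (-(z.1 i))
  have hy := Real.exp_pos (-(z.2 j))
  have hx1 := exp_neg_lt_one (h1 i)
  rw [div_le_iff₀ (by positivity)]
  nlinarith [mul_pos hx hy]

theorem BB_nonneg {N : ℕ} (z : (Fin N → ℝ) × (Fin N → ℝ)) (i j : Fin N) : 0 ≤ BB z i j := by
  rw [BB_apply]; positivity

theorem BB_mono {N : ℕ} {z z' : (Fin N → ℝ) × (Fin N → ℝ)} (h2 : ∀ i, 0 < z.2 i)
    (h2' : ∀ i, 0 < z'.2 i) (hu : z.1 ≤ z'.1) (hv : z'.2 ≤ z.2) (i j : Fin N) :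
    BB z' i j ≤ BB z i j := by
  rw [BB_apply, BB_apply]
  have hx := Real.exp_pos (-(z.1 i))
  have hy := Real.exp_pos (-(z.2 j))
  have hx' := Real.exp_pos (-(z'.1 i))
  have hy' := Real.exp_pos (-(z'.2 j))
  have e1 : Real.exp (-(z'.1 i)) ≤ Real.exp (-(z.1 i)) := Real.exp_le_exp.mpr (neg_le_neg (hu i))
  have e2 : Real.exp (-(z.2 j)) ≤ Real.exp (-(z'.2 j)) := Real.exp_le_exp.mpr (neg_le_neg (hv j))
  have y1 := exp_neg_lt_one (h2 j)
  have y1' := exp_neg_lt_one (h2' j)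
  set x := Real.exp (-(z.1 i))
  set y := Real.exp (-(z.2 j))
  set x' := Real.exp (-(z'.1 i))
  set y' := Real.exp (-(z'.2 j))
  rw [div_le_div_iff₀ (by positivity) (by positivity)]
  -- (1+x')(1+xy) ≤ (1+x)(1+x'y')
  nlinarith [mul_nonneg (sub_nonneg.mpr e1) (sub_nonneg.mpr y1.le),
    mul_nonneg (mul_pos hx' (by positivity : (0 : ℝ) < 1 + x)).le (sub_nonneg.mpr e2),
    mul_nonneg (sub_nonneg.mpr e1) (sub_nonneg.mpr e2)]

theorem BB_cons {N : ℕ} (a b : ℝ) (z : (Fin N → ℝ) × (Fin N → ℝ)) :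
    (BB ((Fin.cons a z.1 : Fin (N + 1) → ℝ), (Fin.cons b z.2 : Fin (N + 1) → ℝ))).submatrix
      Fin.succ Fin.succ = BB z := by
  ext i j
  simp only [Matrix.submatrix_apply, BB_apply, Fin.cons_succ]

/-- the permanent factor -/
noncomputable def pB {N : ℕ} (z : (Fin N → ℝ) × (Fin N → ℝ)) : ℝ≥0∞ :=
  ENNReal.ofReal (BB z).permanent

theorem measurable_pB (N : ℕ) : Measurable (fun z : (Fin N → ℝ) × (Fin N → ℝ) => pB z) := by
  have m1 : ∀ i : Fin N, Measurable (fun z : (Fin N → ℝ) × (Fin N → ℝ) => z.1 i) :=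
    fun i => (measurable_pi_apply i).comp measurable_fst
  have m2 : ∀ i : Fin N, Measurable (fun z : (Fin N → ℝ) × (Fin N → ℝ) => z.2 i) :=
    fun i => (measurable_pi_apply i).comp measurable_snd
  unfold pB
  refine ENNReal.measurable_ofReal.comp ?_
  unfold Matrix.permanent
  refine Finset.measurable_sum _ fun σ _ => Finset.measurable_prod _ fun i _ => ?_
  have h1 : Measurable (fun z : (Fin N → ℝ) × (Fin N → ℝ) => Real.exp (-(z.1 (σ i)))) :=
    Real.measurable_exp.comp (m1 (σ i)).neg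
  have h2 : Measurable (fun z : (Fin N → ℝ) × (Fin N → ℝ) => Real.exp (-(z.2 i))) :=
    Real.measurable_exp.comp (m2 i).neg
  exact (h1.const_add 1).div ((h1.mul h2).const_add 1)

theorem symm_pB (N : ℕ) : Symm (fun z : (Fin N → ℝ) × (Fin N → ℝ) => pB z) := by
  constructor
  · intro σ z
    have : BB ((z.1 ∘ σ, z.2) : (Fin N → ℝ) × (Fin N → ℝ)) = (BB z).submatrix σ id := by
      ext i j; rfl
    simp only [pB, this, Matrix.permanent_permute_cols]
  · intro σ z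
    have : BB ((z.1, z.2 ∘ σ) : (Fin N → ℝ) × (Fin N → ℝ)) = (BB z).submatrix id σ := by
      ext i j; rfl
    simp only [pB, this, Matrix.permanent_permute_rows]

theorem decr_pB (N : ℕ) : Decr (fun z : (Fin N → ℝ) × (Fin N → ℝ) => pB z) := by
  intro z z' h1 h2 h1' h2' hu hv
  exact ENNReal.ofReal_le_ofReal (perm_mono (fun i j => BB_nonneg _ i j)
    fun i j => BB_mono h2 h2' hu hv i j)

theorem pB_lower {N : ℕ} (a b : ℝ) (z : (Fin N → ℝ) × (Fin N → ℝ)) (ha : 0 < a) (hb : 0 < b)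
    (h1 : ∀ i, 0 < z.1 i) (h2 : ∀ i, 0 < z.2 i) :
    ENNReal.ofReal (((N : ℝ) + 2) / 2) * pB z ≤
      pB ((Fin.cons a z.1 : Fin (N + 1) → ℝ), (Fin.cons b z.2 : Fin (N + 1) → ℝ)) := by
  unfold pB
  rw [← ENNReal.ofReal_mul (by positivity)]
  refine ENNReal.ofReal_le_ofReal ?_
  have c1 : ∀ i, 0 < (Fin.cons a z.1 : Fin (N + 1) → ℝ) i := by
    intro i
    induction i using Fin.cases with
    | zero => exact ha
    | succ i => exact h1 i
  have c2 : ∀ i, 0 < (Fin.cons b z.2 : Fin (N + 1) → ℝ) i := by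
    intro i
    induction i using Fin.cases with
    | zero => exact hb
    | succ i => exact h2 i
  have := (perm_bounds (BB ((Fin.cons a z.1 : Fin (N + 1) → ℝ), (Fin.cons b z.2 : Fin (N + 1) → ℝ)))
    (fun i j => BB_one_le c2 i j) (fun i j => BB_le_two c1 i j)).1
  rwa [BB_cons] at this

theorem pB_upper {N : ℕ} (a b : ℝ) (z : (Fin N → ℝ) × (Fin N → ℝ)) (ha : 0 < a) (hb : 0 < b)
    (h1 : ∀ i, 0 < z.1 i) (h2 : ∀ i, 0 < z.2 i) :
      pB ((Fin.cons a z.1 : Fin (N + 1) → ℝ), (Fin.cons b z.2 : Fin (N + 1) → ℝ)) ≤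
    ENNReal.ofReal (4 * (N : ℝ) + 2) * pB z := by
  unfold pB
  rw [← ENNReal.ofReal_mul (by positivity)]
  refine ENNReal.ofReal_le_ofReal ?_
  have c1 : ∀ i, 0 < (Fin.cons a z.1 : Fin (N + 1) → ℝ) i := by
    intro i
    induction i using Fin.cases with
    | zero => exact ha
    | succ i => exact h1 i
  have c2 : ∀ i, 0 < (Fin.cons b z.2 : Fin (N + 1) → ℝ) i := by
    intro i
    induction i using Fin.cases with
    | zero => exact hb
    | succ i => exact h2 i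
  have := (perm_bounds (BB ((Fin.cons a z.1 : Fin (N + 1) → ℝ), (Fin.cons b z.2 : Fin (N + 1) → ℝ)))
    (fun i j => BB_one_le c2 i j) (fun i j => BB_le_two c1 i j)).2
  rwa [BB_cons] at this

/-! the factor `∏ τ` -/

theorem measurable_ta : Measurable ta := by
  unfold ta
  exact ENNReal.measurable_ofReal.comp (measurable_const.div
    ((Real.measurable_exp.comp measurable_id.neg).const_add 1))

theorem ta_le_one (t : ℝ) : ta t ≤ 1 := by
  unfold ta
  rw [ENNReal.ofReal_le_one]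
  rw [div_le_one (by positivity)]
  have := Real.exp_pos (-t)
  linarith

theorem half_le_ta {t : ℝ} (h : 0 < t) : (2 : ℝ≥0∞)⁻¹ ≤ ta t := by
  unfold ta
  have h2 : (2 : ℝ≥0∞)⁻¹ = ENNReal.ofReal (1 / 2) := by
    rw [one_div, ENNReal.ofReal_inv_of_pos (by norm_num)]
    norm_num
  rw [h2]
  refine ENNReal.ofReal_le_ofReal ?_
  have := exp_neg_lt_one h
  have h0 := Real.exp_pos (-t)
  exact div_le_div_of_nonneg_left zero_le_one (by positivity) (by linarith)

theorem ta_mono {s t : ℝ} (h : s ≤ t) : ta s ≤ ta t := by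
  unfold ta
  refine ENNReal.ofReal_le_ofReal ?_
  have : Real.exp (-t) ≤ Real.exp (-s) := Real.exp_le_exp.mpr (neg_le_neg h)
  have h0 := Real.exp_pos (-t)
  exact div_le_div_of_nonneg_left zero_le_one (by positivity) (by linarith)

noncomputable def pT {N : ℕ} (z : (Fin N → ℝ) × (Fin N → ℝ)) : ℝ≥0∞ := ∏ i, ta (z.1 i)

theorem measurable_pT (N : ℕ) : Measurable (fun z : (Fin N → ℝ) × (Fin N → ℝ) => pT z) := by
  unfold pT
  exact Finset.measurable_prod _ fun i _ => measurable_ta.comp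
    ((measurable_pi_apply i).comp measurable_fst)

theorem symm_pT (N : ℕ) : Symm (fun z : (Fin N → ℝ) × (Fin N → ℝ) => pT z) := by
  constructor
  · intro σ z
    exact Equiv.prod_comp σ (fun i => ta (z.1 i))
  · intro σ z
    rfl

theorem pT_cons {N : ℕ} (a b : ℝ) (z : (Fin N → ℝ) × (Fin N → ℝ)) :
    pT ((Fin.cons a z.1 : Fin (N + 1) → ℝ), (Fin.cons b z.2 : Fin (N + 1) → ℝ)) = ta a * pT z := by
  unfold pT
  rw [Fin.prod_univ_succ]
  simp only [Fin.cons_zero, Fin.cons_succ]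

theorem incr_pT (N : ℕ) : Incr (fun z : (Fin N → ℝ) × (Fin N → ℝ) => pT z) := by
  intro z z' _ _ _ _ hu _
  exact Finset.prod_le_prod' fun i _ => ta_mono (hu i)

/-! swap -/

theorem Symm.swap {N : ℕ} {F : (Fin N → ℝ) × (Fin N → ℝ) → ℝ≥0∞} (h : Symm F) :
    Symm (fun z => F z.swap) :=
  ⟨fun σ z => h.2 σ z.swap, fun σ z => h.1 σ z.swap⟩

theorem Decr.swap {N : ℕ} {F : (Fin N → ℝ) × (Fin N → ℝ) → ℝ≥0∞} (h : Decr F) :
    Incr (fun z => F z.swap) :=
  fun z z' h1 h2 h1' h2' hu hv => h z'.swap z.swap h2' h1' h2 h1 hv hu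

theorem Incr.swap {N : ℕ} {F : (Fin N → ℝ) × (Fin N → ℝ) → ℝ≥0∞} (h : Incr F) :
    Decr (fun z => F z.swap) :=
  fun z z' h1 h2 h1' h2' hu hv => h z'.swap z.swap h2' h1' h2 h1 hv hu

theorem KK_symm (a b : ℝ) : KK a b = KK b a := by
  unfold KK; rw [mul_comm]

theorem fS_swap (p q : ℝ → ℝ≥0∞) {N : ℕ} (z : (Fin N → ℝ) × (Fin N → ℝ)) :
    fS q p z.swap = fS p q z := by
  unfold fS
  simp only [Prod.fst_swap, Prod.snd_swap]
  have : (∏ i, ∏ j, KK (z.2 i) (z.1 j)) = ∏ i, ∏ j, KK (z.1 i) (z.2 j) := by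
    rw [Finset.prod_comm]
    exact Finset.prod_congr rfl fun i _ => Finset.prod_congr rfl fun j _ => KK_symm _ _
  rw [this]
  ring

theorem lintegral_swap' {N : ℕ} (F : (Fin N → ℝ) × (Fin N → ℝ) → ℝ≥0∞) :
    ∫⁻ z, F z.swap ∂((nu N).prod (nu N)) = ∫⁻ z, F z ∂((nu N).prod (nu N)) :=
  lintegral_prod_swap F

theorem lintegral_fS_swap (p q : ℝ → ℝ≥0∞) (N : ℕ) :
    ∫⁻ z, fS q p z ∂((nu N).prod (nu N)) = ∫⁻ z, fS p q z ∂((nu N).prod (nu N)) := by
  rw [← lintegral_swap']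
  exact lintegral_congr fun z => fS_swap p q z

theorem lintegral_fS_mul_swap (p q : ℝ → ℝ≥0∞) {N : ℕ} (F : (Fin N → ℝ) × (Fin N → ℝ) → ℝ≥0∞) :
    ∫⁻ z, fS q p z * F z.swap ∂((nu N).prod (nu N)) =
      ∫⁻ z, fS p q z * F z ∂((nu N).prod (nu N)) := by
  rw [← lintegral_swap' (fun z => fS q p z * F z.swap)]
  refine lintegral_congr fun z => ?_
  rw [fS_swap, Prod.swap_swap]

/-! the four inequalities -/

section four

variable (p q : ℝ → ℝ≥0∞) (hp : Measurable p) (hq : Measurable q) (N : ℕ)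

/-- the integrals -/
noncomputable def I0 : ℝ≥0∞ := ∫⁻ z, fS p q z ∂((nu N).prod (nu N))
noncomputable def Ih : ℝ≥0∞ := ∫⁻ z, fS (fun t => p t * ta t) q z ∂((nu N).prod (nu N))
noncomputable def I1 : ℝ≥0∞ :=
  ∫⁻ z, fS (fun t => p t * ta t) q z * pB z ∂((nu N).prod (nu N))

theorem Ih_eq : Ih p q N = ∫⁻ z, fS p q z * pT z ∂((nu N).prod (nu N)) :=
  lintegral_congr fun z => fS_ta p q z

include hp hq

theorem four1 : ENNReal.ofReal (((N : ℝ) + 2) / 2) * (I1 p q N * Ih p q (N + 1)) ≤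
    Ih p q N * I1 p q (N + 1) := by
  have hp' : Measurable (fun t => p t * ta t) := hp.mul measurable_ta
  have h := removal_incr (p := q) (q := fun t => p t * ta t) hq hp' (N := N)
    (F := fun z => pB z.swap) ((measurable_pB N).comp measurable_swap) (symm_pB N).swap
    (decr_pB N).swap
    (G := fun z => pB z.swap) ((measurable_pB (N + 1)).comp measurable_swap) (symm_pB (N + 1)).swap
    (ENNReal.ofReal (((N : ℝ) + 2) / 2))
    (fun a b z ha hb h1 h2 => pB_lower b a z.swap hb ha h2 h1)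
  rw [lintegral_fS_mul_swap (fun t => p t * ta t) q (fun z => pB z),
    lintegral_fS_mul_swap (fun t => p t * ta t) q (fun z => pB z),
    lintegral_fS_swap (fun t => p t * ta t) q, lintegral_fS_swap (fun t => p t * ta t) q] at h
  exact h

theorem four2 : (2 : ℝ≥0∞)⁻¹ * (Ih p q N * I0 p q (N + 1)) ≤ I0 p q N * Ih p q (N + 1) := by
  rw [Ih_eq, Ih_eq]
  exact removal_incr hp hq (measurable_pT N) (symm_pT N) (incr_pT N) (measurable_pT (N + 1))
    (symm_pT (N + 1)) (2 : ℝ≥0∞)⁻¹ (fun a b z ha hb h1 h2 => by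
      rw [pT_cons]; exact mul_le_mul' (half_le_ta ha) le_rfl)

theorem four3 : Ih p q N * I1 p q (N + 1) ≤
    ENNReal.ofReal (4 * (N : ℝ) + 2) * (I1 p q N * Ih p q (N + 1)) := by
  have hp' : Measurable (fun t => p t * ta t) := hp.mul measurable_ta
  exact removal_decr hp' hq (measurable_pB N) (symm_pB N) (decr_pB N) (measurable_pB (N + 1))
    (symm_pB (N + 1)) _ (fun a b z ha hb h1 h2 => pB_upper a b z ha hb h1 h2)

theorem four4 : I0 p q N * Ih p q (N + 1) ≤ Ih p q N * I0 p q (N + 1) := by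
  have h := removal_decr (p := q) (q := p) hq hp (N := N)
    (F := fun z => pT z.swap) ((measurable_pT N).comp measurable_swap) (symm_pT N).swap
    (incr_pT N).swap
    (G := fun z => pT z.swap) ((measurable_pT (N + 1)).comp measurable_swap) (symm_pT (N + 1)).swap
    1 (fun a b z ha hb h1 h2 => by
      show pT ((Fin.cons b z.2 : Fin (N + 1) → ℝ), (Fin.cons a z.1 : Fin (N + 1) → ℝ)) ≤ _
      have := pT_cons b a z.swap
      simp only [Prod.fst_swap, Prod.snd_swap] at this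
      rw [this]
      exact mul_le_mul' (ta_le_one b) le_rfl)
  rw [lintegral_fS_mul_swap p q (fun z => pT z),
    lintegral_fS_mul_swap p q (fun z => pT z),
    lintegral_fS_swap p q, lintegral_fS_swap p q, one_mul] at h
  rw [Ih_eq, Ih_eq]
  exact h

omit hp hq in
theorem Ih_le : Ih p q N ≤ I0 p q N := by
  rw [Ih_eq]
  refine lintegral_mono fun z => ?_
  calc fS p q z * pT z ≤ fS p q z * 1 := by
        refine mul_le_mul' le_rfl ?_
        exact Finset.prod_le_one' fun i _ => ta_le_one _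
    _ = fS p q z := mul_one _

theorem Ih_ge : ((2 : ℝ≥0∞)⁻¹) ^ N * I0 p q N ≤ Ih p q N := by
  rw [Ih_eq]
  unfold I0
  rw [← lintegral_const_mul _ (measurable_fS hp hq N)]
  refine lintegral_mono_ae ?_
  filter_upwards [Pool.Agent.Helper28.Eta.ae_nunu N] with z hz
  rw [mul_comm]
  refine mul_le_mul' le_rfl ?_
  unfold pT
  calc ((2 : ℝ≥0∞)⁻¹) ^ N = ∏ _i : Fin N, (2 : ℝ≥0∞)⁻¹ := by simp
    _ ≤ _ := Finset.prod_le_prod' fun i _ => half_le_ta (hz.1 i)

end four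

/-- real form of the cancellation -/
theorem QQ {c₁ c₂ : ℝ} (h₁ : 0 < c₁) (h₂ : 0 < c₂) (N : ℕ) :
    (((N : ℝ) + 2) / 4) * (ZZ (kk 1) N c₁ c₂ * ZZ (kk 0) (N + 1) c₁ c₂) ≤
      ZZ (kk 1) (N + 1) c₁ c₂ * ZZ (kk 0) N c₁ c₂ ∧
    ZZ (kk 1) (N + 1) c₁ c₂ * ZZ (kk 0) N c₁ c₂ ≤
      (4 * (N : ℝ) + 2) * (ZZ (kk 1) N c₁ c₂ * ZZ (kk 0) (N + 1) c₁ c₂) := by
  have hp := measurable_pw c₁
  have hq := measurable_pw c₂
  have e0 : ∀ M, I0 (pw c₁) (pw c₂) M = ENNReal.ofReal (ZZ (kk 0) M c₁ c₂) :=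
    fun M => (ofReal_ZZ0 M h₁ h₂).symm
  have e1 : ∀ M, I1 (pw c₁) (pw c₂) M = ENNReal.ofReal (ZZ (kk 1) M c₁ c₂) :=
    fun M => (ofReal_ZZ1 M h₁ h₂).symm
  have z0 : ∀ M, 0 < ZZ (kk 0) M c₁ c₂ := fun M => Pool.Agent.Helper55.BD.ZZ_pos 0 M h₁ h₂
  have z1 : ∀ M, 0 < ZZ (kk 1) M c₁ c₂ := fun M => Pool.Agent.Helper55.BD.ZZ_pos 1 M h₁ h₂
  have hfin : ∀ M, Ih (pw c₁) (pw c₂) M ≠ ⊤ := by
    intro M
    refine ne_top_of_le_ne_top ?_ (Ih_le (pw c₁) (pw c₂) M)
    rw [e0]; exact ENNReal.ofReal_ne_top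
  have hpos : ∀ M, 0 < (Ih (pw c₁) (pw c₂) M).toReal := by
    intro M
    refine ENNReal.toReal_pos ?_ (hfin M)
    intro hz
    have := Ih_ge (pw c₁) (pw c₂) hp hq M
    rw [hz, e0, nonpos_iff_eq_zero, mul_eq_zero] at this
    rcases this with h | h
    · simp at h
    · rw [ENNReal.ofReal_eq_zero] at h
      exact absurd (z0 M) (not_lt.mpr h)
  have eh : ∀ M, Ih (pw c₁) (pw c₂) M = ENNReal.ofReal (Ih (pw c₁) (pw c₂) M).toReal :=
    fun M => (ENNReal.ofReal_toReal (hfin M)).symm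
  have f1 := four1 (pw c₁) (pw c₂) hp hq N
  have f2 := four2 (pw c₁) (pw c₂) hp hq N
  have f3 := four3 (pw c₁) (pw c₂) hp hq N
  have f4 := four4 (pw c₁) (pw c₂) hp hq N
  rw [e1, e1, eh N, eh (N + 1)] at f1 f3
  rw [e0, e0, eh N, eh (N + 1)] at f2 f4
  have hh := hpos N
  have hh' := hpos (N + 1)
  have i2 : (2 : ℝ≥0∞)⁻¹ = ENNReal.ofReal (1 / 2) := by
    rw [one_div, ENNReal.ofReal_inv_of_pos (by norm_num)]
    norm_num
  rw [i2] at f2
  set h := (Ih (pw c₁) (pw c₂) N).toReal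
  set h' := (Ih (pw c₁) (pw c₂) (N + 1)).toReal
  have z0N := z0 N
  have z0N' := z0 (N + 1)
  have z1N := z1 N
  have z1N' := z1 (N + 1)
  set A := ZZ (kk 0) N c₁ c₂
  set A' := ZZ (kk 0) (N + 1) c₁ c₂
  set B := ZZ (kk 1) N c₁ c₂
  set B' := ZZ (kk 1) (N + 1) c₁ c₂
  have hN : (0 : ℝ) ≤ (N : ℝ) := Nat.cast_nonneg N
  rw [← ENNReal.ofReal_mul z1N.le, ← ENNReal.ofReal_mul (by positivity),
    ← ENNReal.ofReal_mul hh.le, ENNReal.ofReal_le_ofReal_iff (by positivity)] at f1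
  rw [← ENNReal.ofReal_mul hh.le, ← ENNReal.ofReal_mul (by positivity),
    ← ENNReal.ofReal_mul z0N.le, ENNReal.ofReal_le_ofReal_iff (by positivity)] at f2
  rw [← ENNReal.ofReal_mul hh.le, ← ENNReal.ofReal_mul z1N.le,
    ← ENNReal.ofReal_mul (by positivity), ENNReal.ofReal_le_ofReal_iff (by positivity)] at f3
  rw [← ENNReal.ofReal_mul z0N.le, ← ENNReal.ofReal_mul hh.le,
    ENNReal.ofReal_le_ofReal_iff (by positivity)] at f4
  constructor
  · have hm := mul_le_mul f1 f2 (by positivity) (by positivity)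
    have : ((N : ℝ) + 2) / 4 * (B * A') * (h * h') ≤ B' * A * (h * h') := by
      calc _ = ((N : ℝ) + 2) / 2 * (B * h') * (1 / 2 * (h * A')) := by ring
        _ ≤ _ := hm
        _ = _ := by ring
    exact le_of_mul_le_mul_right this (by positivity)
  · have hm := mul_le_mul f3 f4 (by positivity) (by positivity)
    have : B' * A * (h * h') ≤ (4 * (N : ℝ) + 2) * (B * A') * (h * h') := by
      calc _ = h * B' * (A * h') := by ring
        _ ≤ _ := hm
        _ = _ := by ring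
    exact le_of_mul_le_mul_right this (by positivity)

end Pool.Agent.Helper32.BD
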